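import Mathlib

/-! The comparison of sums of squares of codegrees: abstract part. -/

set_option autoImplicit false
set_option maxHeartbeats 4000000
open Finset

namespace Pool.Agent.N461.L2

section
variable {V : Type} [Fintype V]

theorem sw12 (g : V → V → V → ℝ) :
    ∑ x, ∑ y, ∑ z, g x y z = ∑ x, ∑ y, ∑ z, g y x z := sum_comm

theorem sw23 (g : V → V → V → ℝ) :
    ∑ x, ∑ y, ∑ z, g x y z = ∑ x, ∑ y, ∑ z, g x z y := sum_congr rfl fun _ _ => sum_comm

/-- the terms of a sum over triples, sorted by the pair -/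
theorem relab {h f : V → V → ℝ} {B : V → V → V → ℝ} (hs : ∀ x y, h x y = h y x)
    (fs : ∀ x y, f x y = f y x) (B12 : ∀ x y z, B x y z = B y x z)
    (B23 : ∀ x y z, B x y z = B x z y) :
    ∑ x, ∑ y, ∑ z, f x y * B x y z * (h x z + h y z) =
      ∑ x, ∑ y, h x y * ∑ z, B x y z * (f x z + f y z) := by
  have e1 : ∑ x, ∑ y, ∑ z, f x y * B x y z * h x z = ∑ x, ∑ y, ∑ z, h x y * (B x y z * f x z) := by
    rw [sw23]
    refine sum_congr rfl fun x _ => sum_congr rfl fun y _ => sum_congr rfl fun z _ => ?_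
    rw [B23 x z y]
    ring
  have e2 : ∑ x, ∑ y, ∑ z, f x y * B x y z * h y z = ∑ x, ∑ y, ∑ z, h x y * (B x y z * f y z) := by
    rw [sw12]
    have : ∑ x, ∑ y, ∑ z, f y x * B y x z * h x z = ∑ x, ∑ y, ∑ z, f x y * B x y z * h x z := by
      refine sum_congr rfl fun x _ => sum_congr rfl fun y _ => sum_congr rfl fun z _ => ?_
      rw [fs y x, B12 y x z]
    rw [this, e1, sw12]
    refine sum_congr rfl fun x _ => sum_congr rfl fun y _ => sum_congr rfl fun z _ => ?_
    rw [hs y x, B12 y x z]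
  have e3 : ∀ x y z, f x y * B x y z * (h x z + h y z) =
      f x y * B x y z * h x z + f x y * B x y z * h y z := fun x y z => by ring
  have e4 : ∀ x y, h x y * ∑ z, B x y z * (f x z + f y z) =
      ∑ z, h x y * (B x y z * f x z) + ∑ z, h x y * (B x y z * f y z) := by
    intro x y
    rw [mul_sum, ← sum_add_distrib]
    exact sum_congr rfl fun z _ => by ring
  simp only [e3, e4, sum_add_distrib]
  rw [e1, e2]

theorem hh_le {h : V → V → ℝ} {b : ℝ} (hs : ∀ x y, h x y = h y x) (h0 : ∀ x y, 0 ≤ h x y)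
    (hr : ∀ x, ∑ y, h x y ≤ b) :
    ∑ x, ∑ y, ∑ z, (h x z * h y z + h x y * h x z + h x y * h y z) ≤
      3 * b * ∑ x, ∑ y, h x y := by
  have q : ∑ x, ∑ y, ∑ z, h x y * h x z ≤ b * ∑ x, ∑ y, h x y := by
    rw [mul_sum]
    refine sum_le_sum fun x _ => ?_
    have e : ∑ y, ∑ z, h x y * h x z = (∑ y, h x y) * ∑ z, h x z := by
      rw [sum_mul]
      exact sum_congr rfl fun y _ => by rw [mul_sum]
    rw [e]
    exact mul_le_mul_of_nonneg_right (hr x) (sum_nonneg fun y _ => h0 x y)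
  have q2 : ∑ x, ∑ y, ∑ z, h x y * h y z = ∑ x, ∑ y, ∑ z, h x y * h x z := by
    rw [sw12]
    refine sum_congr rfl fun x _ => sum_congr rfl fun y _ => sum_congr rfl fun z _ => ?_
    rw [hs y x]
  have q3 : ∑ x, ∑ y, ∑ z, h x z * h y z = ∑ x, ∑ y, ∑ z, h x y * h x z := by
    rw [sw23, ← q2]
    refine sum_congr rfl fun x _ => sum_congr rfl fun y _ => sum_congr rfl fun z _ => ?_
    rw [hs z y]
  simp only [sum_add_distrib]
  rw [q2, q3]
  linarith

theorem abs_main {t h : V → V → ℝ} {B M : V → V → V → ℝ} {N ε θ : ℝ}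
    (hN : 0 ≤ N) (hε : 0 ≤ ε) (hθ : 0 ≤ θ)
    (ts : ∀ x y, t x y = t y x) (hs : ∀ x y, h x y = h y x)
    (B12 : ∀ x y z, B x y z = B y x z) (B23 : ∀ x y z, B x y z = B x z y)
    (M12 : ∀ x y z, M x y z = M y x z) (M23 : ∀ x y z, M x y z = M x z y)
    (B0 : ∀ x y z, 0 ≤ B x y z) (M0 : ∀ x y z, 0 ≤ M x y z) (M1 : ∀ x y z, M x y z ≤ 1)
    (h01 : ∀ x y, h x y = 0 ∨ h x y = 1)
    (t0 : ∀ x y, 0 ≤ t x y) (tN : ∀ x y, t x y ≤ N)
    (hb : ∀ x y, h x y = 0 → ∑ z, B x y z ≤ 2 * θ * N)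
    (hm : ∀ x y, h x y = 0 → ∑ z, M x y z ≤ ε * N)
    (hB : ∀ x y z, B x y z ≤ B x y z * (h x y + h x z + h y z))
    (hM : ∀ x y z, 0 ≤ M x y z * (2 * t x y - ε * N))
    (hr : ∀ x, ∑ y, h x y ≤ θ * N) :
    ∑ x, ∑ y, ((t x y + ∑ z, B x y z - ∑ z, M x y z) ^ 2 - t x y ^ 2) ≤
      ∑ x, ∑ y, h x y * (((t x y + ∑ z, B x y z - ∑ z, M x y z) ^ 2 - t x y ^ 2) +
        ∑ z, B x y z * ((2 * t x z + 2 * θ * N) + (2 * t y z + 2 * θ * N)) -
        ∑ z, M x y z * ((2 * t x z - ε * N) + (2 * t y z - ε * N)) + 6 * θ * N ^ 2) := by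
  have h0 : ∀ x y, 0 ≤ h x y := fun x y => by rcases h01 x y with e | e <;> rw [e] <;> norm_num
  have key : ∀ x y, ((t x y + ∑ z, B x y z - ∑ z, M x y z) ^ 2 - t x y ^ 2) ≤
      h x y * ((t x y + ∑ z, B x y z - ∑ z, M x y z) ^ 2 - t x y ^ 2) +
      (∑ z, (2 * t x y + 2 * θ * N) * B x y z * (h x z + h y z) -
       ∑ z, (2 * t x y - ε * N) * M x y z * (h x z + h y z) +
       2 * N * ∑ z, (h x z * h y z + h x y * h x z + h x y * h y z)) := by
    intro x y
    have hω : ∀ z, (2 * t x y - ε * N) * M x y z ≤ 2 * N := by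
      intro z
      have h1 : 2 * t x y - ε * N ≤ 2 * N := by
        have := mul_nonneg hε hN
        linarith [tN x y]
      rcases le_total 0 (2 * t x y - ε * N) with h2 | h2
      · calc (2 * t x y - ε * N) * M x y z ≤ (2 * t x y - ε * N) * 1 :=
            mul_le_mul_of_nonneg_left (M1 x y z) h2
          _ ≤ 2 * N := by linarith
      · have := mul_nonneg_of_nonpos_of_nonpos h2 (neg_nonpos.mpr (M0 x y z))
        have h3 : (2 * t x y - ε * N) * M x y z ≤ 0 := mul_nonpos_of_nonpos_of_nonneg h2 (M0 x y z)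
        linarith
    have hf : 0 ≤ 2 * t x y + 2 * θ * N := by
      have := mul_nonneg hθ hN
      linarith [t0 x y]
    rw [mul_sum, ← sum_sub_distrib, ← sum_add_distrib]
    rcases h01 x y with e | e
    · rw [e, zero_mul, zero_add]
      have hbb := hb x y e
      have hmm := hm x y e
      have b0 : 0 ≤ ∑ z, B x y z := sum_nonneg fun z _ => B0 x y z
      have m0 : 0 ≤ ∑ z, M x y z := sum_nonneg fun z _ => M0 x y z
      have s1 : (t x y + ∑ z, B x y z - ∑ z, M x y z) ^ 2 - t x y ^ 2 ≤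
          ∑ z, ((2 * t x y + 2 * θ * N) * B x y z - (2 * t x y - ε * N) * M x y z) := by
        rw [sum_sub_distrib, ← mul_sum, ← mul_sum]
        nlinarith [mul_le_mul_of_nonneg_right hbb b0, mul_le_mul_of_nonneg_right hmm m0,
          mul_nonneg b0 m0]
      refine s1.trans (sum_le_sum fun z _ => ?_)
      have hBz := hB x y z
      rw [e] at hBz
      have g1 : (2 * t x y + 2 * θ * N) * B x y z ≤
          (2 * t x y + 2 * θ * N) * B x y z * (h x z + h y z) := by
        calc (2 * t x y + 2 * θ * N) * B x y z ≤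
            (2 * t x y + 2 * θ * N) * (B x y z * (h x z + h y z)) :=
              mul_le_mul_of_nonneg_left (by linarith) hf
          _ = _ := by ring
      have g2 := hω z
      have g3 : 0 ≤ (2 * t x y - ε * N) * M x y z := by
        rw [mul_comm]; exact hM x y z
      have g4 : -((2 * t x y - ε * N) * M x y z) ≤
          -((2 * t x y - ε * N) * M x y z * (h x z + h y z)) + 2 * N * (h x z * h y z) := by
        rcases h01 x z with e1 | e1 <;> rcases h01 y z with e2 | e2 <;> rw [e1, e2] <;> linarith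
      have g5 : 2 * N * (h x z * h y z + 0 * h x z + 0 * h y z) = 2 * N * (h x z * h y z) := by ring
      rw [g5]
      linarith
    · rw [e, one_mul]
      have s2 : 0 ≤ ∑ z, ((2 * t x y + 2 * θ * N) * B x y z * (h x z + h y z) -
          (2 * t x y - ε * N) * M x y z * (h x z + h y z) +
          2 * N * (h x z * h y z + 1 * h x z + 1 * h y z)) := by
        refine sum_nonneg fun z _ => ?_
        have g1 : 0 ≤ (2 * t x y + 2 * θ * N) * B x y z * (h x z + h y z) :=
          mul_nonneg (mul_nonneg hf (B0 x y z)) (add_nonneg (h0 x z) (h0 y z))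
        have g2 := hω z
        have g3 : (2 * t x y - ε * N) * M x y z * (h x z + h y z) ≤ 2 * N * (h x z + h y z) :=
          mul_le_mul_of_nonneg_right g2 (add_nonneg (h0 x z) (h0 y z))
        have g4 : 0 ≤ 2 * N * (h x z * h y z) :=
          mul_nonneg (by linarith) (mul_nonneg (h0 x z) (h0 y z))
        nlinarith
      linarith
  have s1 := sum_le_sum fun x (_ : x ∈ (univ : Finset V)) =>
    sum_le_sum fun y (_ : y ∈ (univ : Finset V)) => key x y
  refine s1.trans ?_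
  have r1 := relab (h := h) (f := fun x y => 2 * t x y + 2 * θ * N) (B := B) hs
    (fun x y => by rw [ts]) B12 B23
  have r2 := relab (h := h) (f := fun x y => 2 * t x y - ε * N) (B := M) hs
    (fun x y => by rw [ts]) M12 M23
  have r3 := mul_le_mul_of_nonneg_left (hh_le hs h0 hr) (by linarith : 0 ≤ 2 * N)
  have l1 : ∑ x, ∑ y, (h x y * ((t x y + ∑ z, B x y z - ∑ z, M x y z) ^ 2 - t x y ^ 2) +
      (∑ z, (2 * t x y + 2 * θ * N) * B x y z * (h x z + h y z) -
       ∑ z, (2 * t x y - ε * N) * M x y z * (h x z + h y z) +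
       2 * N * ∑ z, (h x z * h y z + h x y * h x z + h x y * h y z))) =
      ∑ x, ∑ y, h x y * ((t x y + ∑ z, B x y z - ∑ z, M x y z) ^ 2 - t x y ^ 2) +
      (∑ x, ∑ y, ∑ z, (2 * t x y + 2 * θ * N) * B x y z * (h x z + h y z) -
       ∑ x, ∑ y, ∑ z, (2 * t x y - ε * N) * M x y z * (h x z + h y z) +
       2 * N * ∑ x, ∑ y, ∑ z, (h x z * h y z + h x y * h x z + h x y * h y z)) := by
    rw [mul_sum, ← sum_sub_distrib, ← sum_add_distrib, ← sum_add_distrib]
    refine sum_congr rfl fun x _ => ?_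
    rw [mul_sum, ← sum_sub_distrib, ← sum_add_distrib, ← sum_add_distrib]
  have l2 : ∑ x, ∑ y, h x y * (((t x y + ∑ z, B x y z - ∑ z, M x y z) ^ 2 - t x y ^ 2) +
        ∑ z, B x y z * ((2 * t x z + 2 * θ * N) + (2 * t y z + 2 * θ * N)) -
        ∑ z, M x y z * ((2 * t x z - ε * N) + (2 * t y z - ε * N)) + 6 * θ * N ^ 2) =
      ∑ x, ∑ y, h x y * ((t x y + ∑ z, B x y z - ∑ z, M x y z) ^ 2 - t x y ^ 2) +
      ∑ x, ∑ y, h x y * ∑ z, B x y z * ((2 * t x z + 2 * θ * N) + (2 * t y z + 2 * θ * N)) -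
      ∑ x, ∑ y, h x y * ∑ z, M x y z * ((2 * t x z - ε * N) + (2 * t y z - ε * N)) +
      6 * θ * N ^ 2 * ∑ x, ∑ y, h x y := by
    rw [mul_sum, ← sum_add_distrib, ← sum_sub_distrib, ← sum_add_distrib]
    refine sum_congr rfl fun x _ => ?_
    rw [mul_sum, ← sum_add_distrib, ← sum_sub_distrib, ← sum_add_distrib]
    exact sum_congr rfl fun y _ => by ring
  rw [l1, l2]
  linarith

end
end Pool.Agent.N461.L2
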