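import Pool.Agent.N461.L2.Main

/-! The class sizes of extremal 3-graphs. -/

set_option autoImplicit false
set_option maxRecDepth 100000
set_option maxHeartbeats 4000000
open Finset

namespace Pool.Agent.N461.L2
open Pool.Agent.H122R2.N6 Pool.Agent.H37R3.Pen Pool.Agent.H37R3.Cop Pool.Agent.H37R3.CopL
open Pool.Agent.TH773.ST Pool.Agent.N461.TT

/-- the sum for classes of sizes `a`, `b`, `c` -/
def Q3 (a b c : ℝ) : ℝ := a * (a - 1) * b ^ 2 + b * (b - 1) * c ^ 2 + c * (c - 1) * a ^ 2 +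
  2 * (a * b * (a - 1 + c) ^ 2 + b * c * (b - 1 + a) ^ 2 + c * a * (c - 1 + b) ^ 2)

theorem Q3_cyc (a b c : ℝ) : Q3 a b c = Q3 b c a := by unfold Q3; ring

theorem step1 {m p q : ℝ} (hm : 6000 ≤ m) (hp2 : 2 ≤ p) (hq : 0 ≤ q) (hqp : q ≤ p)
    (hpm : p ≤ m / 100) : Q3 (m + p) m (m + q) < Q3 (m + p - 1) (m + 1) (m + q) := by
  have e : Q3 (m + p - 1) (m + 1) (m + q) - Q3 (m + p) m (m + q) =
      12 * m ^ 2 * (p - 1) + m * (8 * p ^ 2 - 26 * p + 18 - 6 * q ^ 2 + 20 * p * q - 14 * q) +
      (2 * p ^ 3 - 9 * p ^ 2 + 13 * p - 6 - q ^ 2 + 6 * p ^ 2 * q - 16 * p * q + 9 * q - 2 * q ^ 3 +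
        4 * p * q ^ 2) := by unfold Q3; ring
  have h1 : 6 * m ^ 2 * p ≤ 12 * m ^ 2 * (p - 1) := by nlinarith [sq_nonneg m]
  have h2 : -(m * (46 * p)) ≤
      m * (8 * p ^ 2 - 26 * p + 18 - 6 * q ^ 2 + 20 * p * q - 14 * q) := by
    rw [← mul_neg]
    refine mul_le_mul_of_nonneg_left ?_ (by linarith)
    nlinarith [mul_nonneg hq (sub_nonneg.mpr hqp), mul_nonneg (by linarith : 0 ≤ p) hq]
  have h3 : -(30 * p ^ 2 + 6) ≤ 2 * p ^ 3 - 9 * p ^ 2 + 13 * p - 6 - q ^ 2 + 6 * p ^ 2 * q -
      16 * p * q + 9 * q - 2 * q ^ 3 + 4 * p * q ^ 2 := by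
    have a1 : q ^ 2 ≤ p ^ 2 := pow_le_pow_left₀ hq hqp 2
    have a2 : p * q ≤ p ^ 2 := by nlinarith
    have a3 : 2 * q ^ 3 ≤ 4 * p * q ^ 2 := by
      have : q * q ^ 2 ≤ p * q ^ 2 := mul_le_mul_of_nonneg_right hqp (by positivity)
      have : 0 ≤ p * q ^ 2 := by positivity
      nlinarith
    have a4 : 0 ≤ p ^ 3 := by positivity
    have a5 : 0 ≤ p ^ 2 * q := by positivity
    nlinarith
  have h4 : p ^ 2 ≤ p * (m / 100) := by nlinarith
  have h5 : 0 < m * p := by positivity
  have h6 : 6000 * (m * p) ≤ m * (m * p) := mul_le_mul_of_nonneg_right hm h5.le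
  nlinarith

theorem step2 {m p q : ℝ} (hm : 6000 ≤ m) (hp2 : 2 ≤ p) (hq : 0 ≤ q) (hqp : q ≤ p)
    (hpm : p ≤ m / 100) : Q3 m (m + p) (m + q) < Q3 (m + 1) (m + p - 1) (m + q) := by
  have e : Q3 (m + 1) (m + p - 1) (m + q) - Q3 m (m + p) (m + q) =
      12 * m ^ 2 * (p - 1) + m * (2 * p ^ 2 - 8 * p + 6 + 6 * q ^ 2 + 8 * p * q - 14 * q) +
      (4 * p * q ^ 2 - 7 * q ^ 2 + 5 * q - 4 * p * q + 2 * q ^ 3) := by unfold Q3; ring
  have h1 : 6 * m ^ 2 * p ≤ 12 * m ^ 2 * (p - 1) := by nlinarith [sq_nonneg m]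
  have h2 : -(m * (22 * p)) ≤
      m * (2 * p ^ 2 - 8 * p + 6 + 6 * q ^ 2 + 8 * p * q - 14 * q) := by
    rw [← mul_neg]
    refine mul_le_mul_of_nonneg_left ?_ (by linarith)
    nlinarith [mul_nonneg hq (sub_nonneg.mpr hqp), mul_nonneg (by linarith : 0 ≤ p) hq]
  have h3 : -(11 * p ^ 2) ≤ 4 * p * q ^ 2 - 7 * q ^ 2 + 5 * q - 4 * p * q + 2 * q ^ 3 := by
    have a1 : q ^ 2 ≤ p ^ 2 := pow_le_pow_left₀ hq hqp 2
    have a2 : p * q ≤ p ^ 2 := by nlinarith
    have a3 : 0 ≤ p * q ^ 2 := by positivity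
    have a4 : 0 ≤ q ^ 3 := by positivity
    nlinarith
  have h4 : p ^ 2 ≤ p * (m / 100) := by nlinarith
  have h5 : 0 < m * p := by positivity
  have h6 : 6000 * (m * p) ≤ m * (m * p) := mul_le_mul_of_nonneg_right hm h5.le
  nlinarith

theorem fe1 : ∀ i : Fin 3, i ≠ i + 1 := by decide
theorem fe2 : ∀ i : Fin 3, i + 2 ≠ i + 1 := by decide
theorem fe3 : ∀ i : Fin 3, i + 2 ≠ i := by decide

theorem Fin3_cases (i j : Fin 3) (h : i ≠ j) : j = i + 1 ∨ i = j + 1 := by
  revert i j; decide

section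
variable {V : Type} [Fintype V] [DecidableEq V]

/-- the value for Turán's construction -/
theorem N2_Tf (c : V → Fin 3) : N2 (Tf c) = Q3 (cl c 0) (cl c 1) (cl c 2) := by
  have h0 : ∀ x y : V, x ≠ y → dr (Tf c) x y = (∑ k, cl c k * (Rf (c x) (c y) k : ℝ)) -
      (Rf (c x) (c y) (c x) : ℝ) - (Rf (c x) (c y) (c y) : ℝ) := by
    intro x y hxy
    rw [← rowsum]
    unfold dr
    have h : ∀ z, (Tf c x y z : ℝ) = (Rf (c x) (c y) (c z) : ℝ) -
        (if z = x then (Rf (c x) (c y) (c x) : ℝ) else 0) -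
        (if z = y then (Rf (c x) (c y) (c y) : ℝ) else 0) := by
      intro z
      by_cases h1 : z = x
      · subst h1
        rw [if_pos rfl, if_neg hxy]
        have : Tf c z y z = 0 := by unfold Tf; rw [if_neg (fun h => h.2.1 rfl)]
        rw [this]; push_cast; ring
      by_cases h2 : z = y
      · subst h2
        rw [if_neg h1, if_pos rfl]
        have : Tf c x z z = 0 := by unfold Tf; rw [if_neg (fun h => h.2.2 rfl)]
        rw [this]; push_cast; ring
      rw [if_neg h1, if_neg h2, Tf_of hxy (Ne.symm h1) (Ne.symm h2)]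
      ring
    simp only [h, sum_sub_distrib, sum_ite_eq', mem_univ, if_true]
  have h1 : ∀ x : V, dr (Tf c) x x = 0 := by
    intro x
    unfold dr
    refine sum_eq_zero fun z _ => ?_
    have : Tf c x x z = 0 := by unfold Tf; rw [if_neg (fun h => h.1 rfl)]
    rw [this]; norm_num
  set h : Fin 3 → Fin 3 → ℝ := fun i j => ((∑ k, cl c k * (Rf i j k : ℝ)) - (Rf i j i : ℝ) -
    (Rf i j j : ℝ)) ^ 2 with hh
  have h2 : ∀ x y : V, dr (Tf c) x y ^ 2 = h (c x) (c y) - if x = y then h (c x) (c x) else 0 := by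
    intro x y
    by_cases hxy : x = y
    · subst hxy
      rw [if_pos rfl, h1, sub_self]; norm_num
    · rw [if_neg hxy, h0 x y hxy, sub_zero]
  unfold N2
  simp only [h2, sum_sub_distrib, sum_ite_eq, mem_univ, if_true]
  have h3 : ∀ x : V, ∑ y, h (c x) (c y) = ∑ j, cl c j * h (c x) j := fun x =>
    comp_sum c (fun j => h (c x) j)
  simp only [h3]
  rw [comp_sum c (fun i => ∑ j, cl c j * h i j), comp_sum c (fun i => h i i), hh]
  simp [Fin.sum_univ_three, Rf, rB, Q3]
  ring

theorem cl_update {c : V → Fin 3} {v : V} {i j : Fin 3} (hv : c v = i) (hij : i ≠ j) (k : Fin 3) :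
    cl (Function.update c v j) k = cl c k + (if k = j then 1 else 0) - (if k = i then 1 else 0) := by
  have h : ∀ k, cl c k = ∑ x, if c x = k then (1 : ℝ) else 0 := by
    intro k
    unfold cl
    rw [card_filter]
    push_cast
    exact sum_congr rfl fun x _ => by congr
  have h' : cl (Function.update c v j) k = ∑ x, if (Function.update c v j) x = k then (1 : ℝ) else 0 := by
    unfold cl
    rw [card_filter]
    push_cast
    exact sum_congr rfl fun x _ => by congr
  rw [h, h']
  have h2 : ∀ x, (if (Function.update c v j) x = k then (1 : ℝ) else 0) =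
      (if c x = k then (1 : ℝ) else 0) + if x = v then ((if k = j then 1 else 0) -
        (if k = i then 1 else 0)) else 0 := by
    intro x
    by_cases hx : x = v
    · subst hx
      rw [Function.update_self, if_pos rfl, hv]
      by_cases h3 : k = j
      · subst h3
        simp [hij, Ne.symm hij]
      · by_cases h4 : k = i
        · subst h4
          simp [hij, Ne.symm hij]
        · rw [if_neg (Ne.symm h3), if_neg (Ne.symm h4), if_neg h3, if_neg h4]; ring
    · rw [Function.update_of_ne hx, if_neg hx, add_zero]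
  rw [sum_congr rfl fun x _ => h2 x, sum_add_distrib, sum_ite_eq' univ v, if_pos (mem_univ _)]
  ring

end

section
variable {n : ℕ}

/-- any two classes differ by at most one in size -/
def Balanced (g : Fin n → Fin 3) : Prop :=
  ∀ i j : Fin 3, ((univ : Finset (Fin n)).filter fun v => g v = i).card ≤
    ((univ : Finset (Fin n)).filter fun v => g v = j).card + 1

theorem cl_nat (g : Fin n → Fin 3) (k : Fin 3) :
    cl g k = (((univ : Finset (Fin n)).filter fun v => g v = k).card : ℝ) := by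
  unfold cl
  congr

theorem Q3_gen (s : Fin 3 → ℝ) (i : Fin 3) : Q3 (s 0) (s 1) (s 2) = Q3 (s i) (s (i + 1)) (s (i + 2)) := by
  fin_cases i
  · rfl
  · exact Q3_cyc _ _ _
  · exact (Q3_cyc _ _ _).trans (Q3_cyc _ _ _)

/-- a colouring with a larger value, if the classes are close to each other but not balanced -/
theorem improve {c : Fin n → Fin 3} (hn : (20000 : ℝ) ≤ n) (hu : ∀ k, cl c k ≤ (n : ℝ) / 3 + n / 1000)
    (hl : ∀ k, (n : ℝ) / 3 - n / 1000 ≤ cl c k) (hb : ¬ Balanced c) :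
    ∃ g : Fin n → Fin 3, N2 (Tf c) < N2 (Tf g) := by
  obtain ⟨i, hi⟩ : ∃ i, ∀ k, cl c k ≤ cl c i := Finite.exists_max (fun k => cl c k)
  obtain ⟨j, hj⟩ : ∃ j, ∀ k, cl c j ≤ cl c k := Finite.exists_min (fun k => cl c k)
  have hij : cl c j + 2 ≤ cl c i := by
    by_contra hcon
    apply hb
    intro a b
    have h1 := hi a
    have h2 := hj b
    rw [cl_nat, cl_nat] at h1 h2
    rw [cl_nat, cl_nat] at hcon
    push Not at hcon
    have h1' : ((univ : Finset (Fin n)).filter fun v => c v = a).card ≤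
      ((univ : Finset (Fin n)).filter fun v => c v = i).card := by exact_mod_cast h1
    have h2' : ((univ : Finset (Fin n)).filter fun v => c v = j).card ≤
      ((univ : Finset (Fin n)).filter fun v => c v = b).card := by exact_mod_cast h2
    have h3' : ((univ : Finset (Fin n)).filter fun v => c v = i).card <
      ((univ : Finset (Fin n)).filter fun v => c v = j).card + 2 := by exact_mod_cast hcon
    omega
  have hne : i ≠ j := by rintro rfl; linarith
  have hpos : (0 : ℝ) < cl c i := by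
    have := hl i
    linarith
  obtain ⟨v, hv⟩ : ∃ v, c v = i := by
    rw [cl_nat] at hpos
    have : 0 < ((univ : Finset (Fin n)).filter fun v => c v = i).card := by exact_mod_cast hpos
    obtain ⟨v, hv⟩ := card_pos.mp this
    exact ⟨v, (mem_filter.mp hv).2⟩
  refine ⟨Function.update c v j, ?_⟩
  rw [N2_Tf, N2_Tf]
  have hup := cl_update (c := c) hv hne
  have a1 := hu i
  have a2 := hl j
  rcases Fin3_cases i j hne with h | h
  · -- `j = i + 1`
    subst h
    rw [Q3_gen (cl c) i, Q3_gen (cl (Function.update c v (i + 1))) i, hup, hup, hup]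
    have e1 := fe1 i
    have e2 := fe2 i
    have e3 := fe3 i
    rw [if_neg e1, if_pos rfl, if_pos rfl, if_neg (Ne.symm e1), if_neg e2, if_neg e3]
    have s := step1 (m := cl c (i + 1)) (p := cl c i - cl c (i + 1))
      (q := cl c (i + 2) - cl c (i + 1)) (by linarith) (by linarith)
      (by linarith [hj (i + 2)]) (by linarith [hi (i + 2)]) (by linarith)
    have f1 : cl c (i + 1) + (cl c i - cl c (i + 1)) = cl c i := by ring
    have f2 : cl c (i + 1) + (cl c (i + 2) - cl c (i + 1)) = cl c (i + 2) := by ring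
    rw [f1, f2] at s
    have g1 : cl c i + 0 - 1 = cl c i - 1 := by ring
    have g2 : cl c (i + 1) + 1 - 0 = cl c (i + 1) + 1 := by ring
    have g3 : cl c (i + 2) + 0 - 0 = cl c (i + 2) := by ring
    rw [g1, g2, g3]
    exact s
  · -- `i = j + 1`
    subst h
    rw [Q3_gen (cl c) j, Q3_gen (cl (Function.update c v j)) j, hup, hup, hup]
    have e1 := fe1 j
    have e2 := fe2 j
    have e3 := fe3 j
    rw [if_pos rfl, if_neg e1, if_neg (Ne.symm e1), if_pos rfl, if_neg e3, if_neg e2]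
    have s := step2 (m := cl c j) (p := cl c (j + 1) - cl c j)
      (q := cl c (j + 2) - cl c j) (by linarith) (by linarith)
      (by linarith [hj (j + 2)]) (by linarith [hi (j + 2)]) (by linarith)
    have f1 : cl c j + (cl c (j + 1) - cl c j) = cl c (j + 1) := by ring
    have f2 : cl c j + (cl c (j + 2) - cl c j) = cl c (j + 2) := by ring
    rw [f1, f2] at s
    have g1 : cl c j + 1 - 0 = cl c j + 1 := by ring
    have g2 : cl c (j + 1) + 0 - 1 = cl c (j + 1) - 1 := by ring
    have g3 : cl c (j + 2) + 0 - 0 = cl c (j + 2) := by ring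
    rw [g1, g2, g3]
    exact s

/-- all balanced colourings give the same value -/
theorem bal_val {c g : Fin n → Fin 3} (hc : Balanced c) (hg : Balanced g) :
    N2 (Tf c) = N2 (Tf g) := by
  rw [N2_Tf, N2_Tf]
  have sc := cl_sum c
  have sg := cl_sum g
  rw [Fintype.card_fin, cl_nat, cl_nat, cl_nat] at sc sg
  rw [cl_nat, cl_nat, cl_nat, cl_nat, cl_nat, cl_nat]
  have c01 := hc 0 1; have c10 := hc 1 0; have c02 := hc 0 2; have c20 := hc 2 0
  have c12 := hc 1 2; have c21 := hc 2 1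
  have g01 := hg 0 1; have g10 := hg 1 0; have g02 := hg 0 2; have g20 := hg 2 0
  have g12 := hg 1 2; have g21 := hg 2 1
  generalize ((univ : Finset (Fin n)).filter fun v => c v = 0).card = a at *
  generalize ((univ : Finset (Fin n)).filter fun v => c v = 1).card = b at *
  generalize ((univ : Finset (Fin n)).filter fun v => c v = 2).card = d at *
  generalize ((univ : Finset (Fin n)).filter fun v => g v = 0).card = x at *
  generalize ((univ : Finset (Fin n)).filter fun v => g v = 1).card = y at *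
  generalize ((univ : Finset (Fin n)).filter fun v => g v = 2).card = z at *
  have sc' : a + b + d = n := by exact_mod_cast sc
  have sg' : x + y + z = n := by exact_mod_cast sg
  have h : (a = x ∧ b = y ∧ d = z) ∨ (a = y ∧ b = z ∧ d = x) ∨ (a = z ∧ b = x ∧ d = y) := by omega
  rcases h with ⟨rfl, rfl, rfl⟩ | ⟨rfl, rfl, rfl⟩ | ⟨rfl, rfl, rfl⟩
  · rfl
  · exact ((Q3_cyc _ _ _).trans (Q3_cyc _ _ _))
  · exact Q3_cyc _ _ _

end
end Pool.Agent.N461.L2
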