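import Pool.Agent.N461.TT.CHFin
import Pool.Agent.N461.TT.CHbFin
import Pool.Agent.N461.TT.Stab

/-! Cloning of vertices. -/

set_option autoImplicit false
set_option maxRecDepth 100000
set_option maxHeartbeats 4000000
open Finset
open scoped Classical

namespace Pool.Agent.N461.L2
open Pool.Agent.H122R2.N6 Pool.Agent.H37R3.Pen Pool.Agent.H37R3.Cop Pool.Agent.H37R3.CopL
open Pool.Agent.TH773.ST Pool.Agent.N461.TT

section
variable {V W : Type} [Fintype V] [Fintype W]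

/-- codegree -/
noncomputable def dr (E : V → V → V → ℕ) (a b : V) : ℝ := ∑ c, (E a b c : ℝ)

/-- sum of the squares of the codegrees -/
noncomputable def N2 (E : V → V → V → ℕ) : ℝ := ∑ a, ∑ b, dr E a b ^ 2

/-- derivative -/
noncomputable def Dv (E : V → V → V → ℕ) (v : V) : ℝ :=
  2 * (∑ a, ∑ b, dr E a b * (E a b v : ℝ)) + 2 * ∑ a, dr E a v ^ 2

theorem sumT (E : V → V → V → ℕ) :
    ((∑ x : Fin 6 → V, (CH.T E (x 0) (x 1) (x 2) (x 3) (x 4) (x 5) : ℤ) : ℤ) : ℝ) =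
      (Fintype.card V : ℝ) ^ 2 * N2 E := by
  rw [conv6 (fun a b c d e f => (CH.T E a b c d e f : ℤ))]
  have h : ∀ a b : V, ∑ _c : V, ∑ _d : V, ∑ e, ∑ f, (CH.T E a b _c _d e f : ℤ) =
      (Fintype.card V : ℤ) ^ 2 * (∑ e, (E a b e : ℤ)) ^ 2 := by
    intro a b
    have h1 : ∀ c d : V, ∑ e, ∑ f, (CH.T E a b c d e f : ℤ) = (∑ e, (E a b e : ℤ)) ^ 2 := by
      intro c d
      unfold CH.T
      rw [sq, sum_mul_sum]
      exact sum_congr rfl fun e _ => sum_congr rfl fun f _ => by push_cast; ring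
    simp only [h1, sum_const, card_univ, nsmul_eq_mul]
    ring
  simp only [h]
  unfold N2 dr
  push_cast
  rw [mul_sum]
  refine sum_congr rfl fun a _ => ?_
  rw [mul_sum]

theorem A1 {E : V → V → V → ℕ} (hE : Sy E) (hK : NoK4 E) :
    9720 * ((Fintype.card V : ℝ) ^ 2 * N2 E) + 81 * (NT E : ℝ) ≤
      3240 * (Fintype.card V : ℝ) ^ 6 := by
  have h := CH.main hE hK
  have h2 : ((9720 * ∑ x : Fin 6 → V, (CH.T E (x 0) (x 1) (x 2) (x 3) (x 4) (x 5) : ℤ) +
      81 * (NT E : ℤ) : ℤ) : ℝ) ≤ ((3240 * (Fintype.card V : ℤ) ^ 6 : ℤ) : ℝ) := by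
    exact_mod_cast h
  rw [← sumT]
  push_cast at h2 ⊢
  linarith

/-- the colouring from the certificates -/
theorem A2 {E : V → V → V → ℕ} (hE : Sy E) (hK : NoK4 E) : ∃ g : V → Fin 3,
    (Fintype.card V : ℝ) ^ 3 * (bad E g : ℝ) +
      2016 * (9720 * ((Fintype.card V : ℝ) ^ 2 * N2 E)) ≤
      2016 * (3240 * (Fintype.card V : ℝ) ^ 6) := by
  obtain ⟨g, hg⟩ := stabF (E := E) (N := 3240) (CH.main hE hK) (by
    have := CHb.main hE hK
    linarith)
  refine ⟨g, ?_⟩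
  have h2 : (((Fintype.card V : ℤ) ^ 3 * (bad E g : ℤ) + 2016 * (9720 *
      ∑ x : Fin 6 → V, (CH.T E (x 0) (x 1) (x 2) (x 3) (x 4) (x 5) : ℤ)) : ℤ) : ℝ) ≤
      ((2016 * (3240 * (Fintype.card V : ℤ) ^ 6) : ℤ) : ℝ) := by
    exact_mod_cast hg
  rw [← sumT]
  push_cast at h2 ⊢
  linarith

theorem pull_sy {E : V → V → V → ℕ} (hE : Sy E) (φ : W → V) :
    Sy (fun x y z => E (φ x) (φ y) (φ z)) where
  b _ _ _ := hE.b _ _ _
  h213 _ _ _ := hE.h213 _ _ _
  h132 _ _ _ := hE.h132 _ _ _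

theorem pull_k4 {E : V → V → V → ℕ} (hK : NoK4 E) (φ : W → V) :
    NoK4 (fun x y z => E (φ x) (φ y) (φ z)) := fun _ _ _ _ => hK _ _ _ _

/-- the map which makes `k` copies of `v` -/
def cm (v : V) (k : ℕ) : V ⊕ Fin k → V := Sum.elim id fun _ => v

theorem sum_cm (v : V) (k : ℕ) (g : V → ℝ) :
    ∑ a, g (cm v k a) = ∑ a, g a + k * g v := by
  unfold cm
  rw [Fintype.sum_sum_type]
  simp only [Sum.elim_inl, Sum.elim_inr, id, sum_const, card_univ, Fintype.card_fin, nsmul_eq_mul]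

theorem dr0 (E : V → V → V → ℕ) (a b : V) : 0 ≤ dr E a b := by unfold dr; positivity

theorem clone_N2 {E : V → V → V → ℕ} (hE : Sy E) (v : V) (k : ℕ) :
    N2 E + k * Dv E v ≤ N2 (fun x y z => E (cm v k x) (cm v k y) (cm v k z)) := by
  have h1 : ∀ a b, dr (fun x y z => E (cm v k x) (cm v k y) (cm v k z)) a b =
      dr E (cm v k a) (cm v k b) + k * (E (cm v k a) (cm v k b) v : ℝ) := by
    intro a b
    exact sum_cm v k (fun z => (E (cm v k a) (cm v k b) z : ℝ))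
  unfold N2
  simp only [h1]
  set G : V → V → ℝ := fun a b => (dr E a b + k * (E a b v : ℝ)) ^ 2 with hG
  have h2 : ∑ a, ∑ b, (dr E (cm v k a) (cm v k b) + k * (E (cm v k a) (cm v k b) v : ℝ)) ^ 2 =
      ∑ a, ∑ b, G a b + k * ∑ a, G a v + k * (∑ b, G v b + k * G v v) := by
    have h3 : ∀ a, ∑ b, (dr E (cm v k a) (cm v k b) + k * (E (cm v k a) (cm v k b) v : ℝ)) ^ 2 =
        ∑ b, G (cm v k a) b + k * G (cm v k a) v := fun a => sum_cm v k (fun b => G (cm v k a) b)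
    simp only [h3]
    have h4 := sum_cm v k (fun a => ∑ b, G a b + k * G a v)
    rw [h4, sum_add_distrib, mul_sum]
  rw [h2]
  have g0 : ∀ a b, dr E a b ^ 2 + 2 * k * (dr E a b * (E a b v : ℝ)) ≤ G a b := by
    intro a b
    rw [hG]
    have : 0 ≤ (k * (E a b v : ℝ)) ^ 2 := by positivity
    nlinarith
  have g1 : ∀ a b, dr E a b ^ 2 ≤ G a b := by
    intro a b
    have := g0 a b
    have h5 : 0 ≤ 2 * (k : ℝ) * (dr E a b * (E a b v : ℝ)) :=
      mul_nonneg (by positivity) (mul_nonneg (dr0 E a b) (by positivity))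
    linarith
  have s1 : ∑ a, ∑ b, (dr E a b ^ 2 + 2 * k * (dr E a b * (E a b v : ℝ))) ≤ ∑ a, ∑ b, G a b :=
    sum_le_sum fun a _ => sum_le_sum fun b _ => g0 a b
  have s2 : ∑ a, dr E a v ^ 2 ≤ ∑ a, G a v := sum_le_sum fun a _ => g1 a v
  have s3 : ∑ b, dr E v b ^ 2 ≤ ∑ b, G v b := sum_le_sum fun b _ => g1 v b
  have s4 : ∑ b, dr E v b ^ 2 = ∑ b, dr E b v ^ 2 := by
    refine sum_congr rfl fun b _ => ?_
    have : dr E v b = dr E b v := by
      unfold dr
      exact sum_congr rfl fun z _ => by rw [hE.h213 b v z]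
    rw [this]
  have s5 : 0 ≤ (k : ℝ) * G v v := by
    have : 0 ≤ G v v := by rw [hG]; positivity
    positivity
  simp only [sum_add_distrib, ← mul_sum] at s1
  have hk : (0 : ℝ) ≤ k := by positivity
  have p1 := mul_le_mul_of_nonneg_left s2 hk
  have p2 : (k : ℝ) * ∑ a, dr E a v ^ 2 ≤ k * (∑ b, G v b + k * G v v) :=
    mul_le_mul_of_nonneg_left (by linarith) hk
  unfold Dv
  nlinarith

theorem tt_pull {E : V → V → V → ℕ} (φ : W → V) (y : Fin 6 → W) :
    TT (fun x y z => E (φ x) (φ y) (φ z)) y ↔ TT E (φ ∘ y) := Iff.rfl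

/-- number of five-tuples which together with `v` in the position `p` do not follow the rule -/
noncomputable def D5 (E : V → V → V → ℕ) (p : Fin 6) (v : V) : ℕ :=
  ((univ : Finset (Fin 5 → V)).filter fun x => ¬ TT E (Fin.insertNth p v x : Fin 6 → V)).card

theorem clone_NT (E : V → V → V → ℕ) (p : Fin 6) (v : V) (k : ℕ) :
    k * D5 E p v ≤ NT (fun x y z => E (cm v k x) (cm v k y) (cm v k z)) := by
  have h : ((univ : Finset (Fin k)) ×ˢ ((univ : Finset (Fin 5 → V)).filter fun x =>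
      ¬ TT E (Fin.insertNth p v x : Fin 6 → V))).card = k * D5 E p v := by
    rw [card_product, card_univ, Fintype.card_fin]
    rfl
  rw [← h]
  unfold NT
  refine card_le_card_of_injOn (fun q => (Fin.insertNth p (Sum.inr q.1)
    (fun i => Sum.inl (q.2 i)) : Fin 6 → V ⊕ Fin k)) ?_ ?_
  · rintro ⟨i, x⟩ hx
    have hx2 := (mem_filter.mp (mem_product.mp (mem_coe.mp hx)).2).2
    refine mem_coe.mpr (mem_filter.mpr ⟨mem_univ _, ?_⟩)
    intro ht
    apply hx2
    have e : (Fin.insertNth p v x : Fin 6 → V) = cm v k ∘ (Fin.insertNth p (Sum.inr i)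
        (fun i => Sum.inl (x i)) : Fin 6 → V ⊕ Fin k) := by
      funext j
      rcases Fin.eq_self_or_eq_succAbove p j with rfl | ⟨j, rfl⟩
      · simp [cm]
      · simp [cm]
    rw [e]
    exact ht
  · rintro ⟨i, x⟩ _ ⟨i', x'⟩ _ he
    have he' : (Fin.insertNth p (Sum.inr i) (fun i => Sum.inl (x i)) : Fin 6 → V ⊕ Fin k) =
      Fin.insertNth p (Sum.inr i') (fun i => Sum.inl (x' i)) := he
    have h1 := congrFun he' p
    simp at h1
    have h2 : x = x' := by
      funext j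
      have := congrFun he' (p.succAbove j)
      simpa using this
    rw [h1, h2]

/-- the main consequence of cloning -/
theorem clone_main {E : V → V → V → ℕ} (hE : Sy E) (hK : NoK4 E) (p : Fin 6) (v : V) (k : ℕ) :
    9720 * (((Fintype.card V : ℝ) + k) ^ 2 * (N2 E + k * Dv E v)) + 81 * (k * (D5 E p v : ℝ)) ≤
      3240 * ((Fintype.card V : ℝ) + k) ^ 6 := by
  have h1 := A1 (pull_sy hE (cm v k)) (pull_k4 hK (cm v k))
  have h2 := clone_N2 hE v k
  have h3 : ((k * D5 E p v : ℕ) : ℝ) ≤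
      (NT (fun x y z => E (cm v k x) (cm v k y) (cm v k z)) : ℝ) := by
    exact_mod_cast clone_NT E p v k
  rw [Fintype.card_sum, Fintype.card_fin] at h1
  push_cast at h1 h3
  have h4 := mul_le_mul_of_nonneg_left h2 (by positivity : 0 ≤ ((Fintype.card V : ℝ) + k) ^ 2)
  linarith

end
end Pool.Agent.N461.L2
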