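import Pool.Agent.N461.L2.Abs
import Pool.Agent.TH773.ST.Typ

/-! The comparison of sums of squares of codegrees: a 3-graph without a complete four-vertex
subgraph which is close to Turán's construction at every vertex. -/

set_option autoImplicit false
set_option maxRecDepth 100000
set_option maxHeartbeats 4000000
open Finset
open scoped Classical

namespace Pool.Agent.N461.L2
open Pool.Agent.H122R2.N6 Pool.Agent.TH773.ST

theorem r1 : ∀ i j k : Fin 3, Rf i j k = 0 → ∃ l, Rf i j l = 1 ∧ Rf i k l = 1 ∧ Rf j k l = 1 ∧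
    i ≠ l ∧ j ≠ l ∧ k ≠ l := by decide

theorem r2 : ∀ i j : Fin 3, ∃ k0, ∀ k, Rf i j k = 0 → (i = j ∧ k ≠ i) ∨ k = k0 := by decide

theorem r3 : ∀ i j k : Fin 3, Rf i j k = 0 → ¬ (i = j ∧ k ≠ i) → i = k ∨ j = k := by decide

theorem r4 : ∀ i k l : Fin 3, Rf i i k = 0 → k ≠ i → Rf i i l = 0 → l ≠ i → Rf i k l = 1 := by
  decide

section
variable {V : Type}

/-- Turán's construction as a function -/
noncomputable def Tf (c : V → Fin 3) (x y z : V) : ℕ :=
  if x ≠ y ∧ x ≠ z ∧ y ≠ z then Rf (c x) (c y) (c z) else 0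

theorem Tf_of {c : V → Fin 3} {x y z : V} (h1 : x ≠ y) (h2 : x ≠ z) (h3 : y ≠ z) :
    Tf c x y z = Rf (c x) (c y) (c z) := by
  unfold Tf
  rw [if_pos ⟨h1, h2, h3⟩]

theorem Tf_sy (c : V → Fin 3) : Sy (Tf c) where
  b x y z := by
    unfold Tf
    split_ifs
    · exact Rf_sy.b _ _ _
    · exact Or.inl rfl
  h213 x y z := by
    unfold Tf
    by_cases h : x ≠ y ∧ x ≠ z ∧ y ≠ z
    · rw [if_pos h, if_pos ⟨h.1.symm, h.2.2, h.2.1⟩, Rf_sy.h213]
    · rw [if_neg h, if_neg (fun h' => h ⟨h'.1.symm, h'.2.2, h'.2.1⟩)]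
  h132 x y z := by
    unfold Tf
    by_cases h : x ≠ y ∧ x ≠ z ∧ y ≠ z
    · rw [if_pos h, if_pos ⟨h.2.1, h.1, h.2.2.symm⟩, Rf_sy.h132]
    · rw [if_neg h, if_neg (fun h' => h ⟨h'.2.1, h'.1, h'.2.2.symm⟩)]

theorem Tf_ne {c : V → Fin 3} {x y z : V} (h : Tf c x y z = 1) : x ≠ y ∧ x ≠ z ∧ y ≠ z := by
  unfold Tf at h
  by_contra h2
  rw [if_neg h2] at h
  exact absurd h (by decide)

/-- extra edges -/
noncomputable def Bf (E : V → V → V → ℕ) (c : V → Fin 3) (x y z : V) : ℝ :=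
  if E x y z = 1 ∧ Tf c x y z = 0 then 1 else 0

/-- missing edges -/
noncomputable def Mf (E : V → V → V → ℕ) (c : V → Fin 3) (x y z : V) : ℝ :=
  if E x y z = 0 ∧ Tf c x y z = 1 then 1 else 0

variable {E : V → V → V → ℕ} {c : V → Fin 3}

theorem B01 (x y z : V) : Bf E c x y z = 0 ∨ Bf E c x y z = 1 := by
  unfold Bf; split_ifs <;> simp

theorem M01 (x y z : V) : Mf E c x y z = 0 ∨ Mf E c x y z = 1 := by
  unfold Mf; split_ifs <;> simp

theorem Bf0 (x y z : V) : 0 ≤ Bf E c x y z := by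
  rcases B01 (E := E) (c := c) x y z with e | e <;> rw [e]; norm_num

theorem Mf0 (x y z : V) : 0 ≤ Mf E c x y z := by
  rcases M01 (E := E) (c := c) x y z with e | e <;> rw [e]; norm_num

theorem Mf1 (x y z : V) : Mf E c x y z ≤ 1 := by
  rcases M01 (E := E) (c := c) x y z with e | e <;> rw [e]; norm_num

theorem Bf1 (x y z : V) : Bf E c x y z ≤ 1 := by
  rcases B01 (E := E) (c := c) x y z with e | e <;> rw [e]; norm_num

theorem E_eq (hE : Sy E) (x y z : V) :
    (E x y z : ℝ) = (Tf c x y z : ℝ) + Bf E c x y z - Mf E c x y z := by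
  unfold Bf Mf
  rcases hE.b x y z with e | e <;> rcases (Tf_sy c).b x y z with f | f <;> rw [e, f] <;> norm_num

theorem M_le (x y z : V) : Mf E c x y z ≤ (Tf c x y z : ℝ) := by
  unfold Mf
  split_ifs with h
  · rw [h.2]; norm_num
  · positivity

theorem M_pos {x y z : V} (h1 : E x y z = 0) (h2 : Tf c x y z = 1) : Mf E c x y z = 1 := by
  unfold Mf; rw [if_pos ⟨h1, h2⟩]

theorem B12 (hE : Sy E) (x y z : V) : Bf E c x y z = Bf E c y x z := by
  unfold Bf; rw [hE.h213 x y z, (Tf_sy c).h213 x y z]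
theorem B23 (hE : Sy E) (x y z : V) : Bf E c x y z = Bf E c x z y := by
  unfold Bf; rw [hE.h132 x y z, (Tf_sy c).h132 x y z]
theorem M12 (hE : Sy E) (x y z : V) : Mf E c x y z = Mf E c y x z := by
  unfold Mf; rw [hE.h213 x y z, (Tf_sy c).h213 x y z]
theorem M23 (hE : Sy E) (x y z : V) : Mf E c x y z = Mf E c x z y := by
  unfold Mf; rw [hE.h132 x y z, (Tf_sy c).h132 x y z]

theorem deg0 (hE : Sy E) (hd : ∀ x z, E x x z = 0) {x y z : V} (h : E x y z = 1) :
    x ≠ y ∧ x ≠ z ∧ y ≠ z := by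
  refine ⟨?_, ?_, ?_⟩
  · rintro rfl; rw [hd] at h; exact absurd h (by decide)
  · rintro rfl; rw [← hE.h132, hd] at h; exact absurd h (by decide)
  · rintro rfl; rw [← hE.h231, hd] at h; exact absurd h (by decide)

/-- every vertex of a class forces a missing triple -/
theorem cover (hE : Sy E) (hK : NoK4 E) (hd : ∀ x z, E x x z = 0) {x y z : V}
    (h1 : E x y z = 1) (h2 : Tf c x y z = 0) : ∃ l : Fin 3, c x ≠ l ∧ c y ≠ l ∧ c z ≠ l ∧
      ∀ w, c w = l → 1 ≤ Mf E c x y w + Mf E c x z w + Mf E c y z w := by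
  obtain ⟨a, b, d⟩ := deg0 hE hd h1
  rw [Tf_of a b d] at h2
  obtain ⟨l, e1, e2, e3, f1, f2, f3⟩ := r1 _ _ _ h2
  refine ⟨l, f1, f2, f3, fun w hw => ?_⟩
  have n1 : x ≠ w := by rintro rfl; exact f1 hw
  have n2 : y ≠ w := by rintro rfl; exact f2 hw
  have n3 : z ≠ w := by rintro rfl; exact f3 hw
  subst hw
  have t1 : Tf c x y w = 1 := by rw [Tf_of a n1 n2]; exact e1
  have t2 : Tf c x z w = 1 := by rw [Tf_of b n1 n3]; exact e2
  have t3 : Tf c y z w = 1 := by rw [Tf_of d n2 n3]; exact e3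
  have hk := hK x y z w
  rw [h1] at hk
  have p1 := Mf0 (E := E) (c := c) x y w
  have p2 := Mf0 (E := E) (c := c) x z w
  have p3 := Mf0 (E := E) (c := c) y z w
  rcases hE.b x y w with q1 | q1
  · rw [M_pos q1 t1]; linarith
  rcases hE.b x z w with q2 | q2
  · rw [M_pos q2 t2]; linarith
  rcases hE.b y z w with q3 | q3
  · rw [M_pos q3 t3]; linarith
  rw [q1, q2, q3] at hk
  exact absurd hk (by decide)

/-- two extra edges on a pair inside a class force a missing triple -/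
theorem special (hE : Sy E) (hK : NoK4 E) (hd : ∀ x z, E x x z = 0) {x y z w : V} (hzw : z ≠ w)
    (h1 : E x y z = 1) (h2 : Tf c x y z = 0) (h3 : E x y w = 1) (h4 : Tf c x y w = 0)
    (hc : c x = c y) (hz : c z ≠ c x) (hw : c w ≠ c x) :
    1 ≤ Mf E c x z w + Mf E c y z w := by
  obtain ⟨a, b, d⟩ := deg0 hE hd h1
  obtain ⟨-, b', d'⟩ := deg0 hE hd h3
  rw [Tf_of a b d, ← hc] at h2
  rw [Tf_of a b' d', ← hc] at h4
  have e := r4 _ _ _ h2 hz h4 hw
  have t1 : Tf c x z w = 1 := by rw [Tf_of b b' hzw]; exact e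
  have t2 : Tf c y z w = 1 := by rw [Tf_of d d' hzw, ← hc]; exact e
  have hk := hK x y z w
  rw [h1, h3] at hk
  have p1 := Mf0 (E := E) (c := c) x z w
  have p2 := Mf0 (E := E) (c := c) y z w
  rcases hE.b x z w with q1 | q1
  · rw [M_pos q1 t1]; linarith
  rcases hE.b y z w with q2 | q2
  · rw [M_pos q2 t2]; linarith
  rw [q1, q2] at hk
  exact absurd hk (by decide)

end

section
variable {V : Type} [Fintype V]

/-- the size of a class -/
noncomputable def cl (c : V → Fin 3) (k : Fin 3) : ℝ :=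
  ((univ.filter fun v => c v = k).card : ℝ)

variable {E : V → V → V → ℕ} {c : V → Fin 3} {N : ℝ}

theorem rowsum (i j : Fin 3) : ∑ z, (Rf i j (c z) : ℝ) = ∑ k, cl c k * (Rf i j k : ℝ) := by
  rw [← sum_fiberwise (s := univ) (g := c)]
  refine sum_congr rfl fun k _ => ?_
  rw [sum_congr rfl (fun z hz => by rw [(mem_filter.mp hz).2]), sum_const, nsmul_eq_mul]
  rfl

theorem cls_sum (l : Fin 3) (f : V → ℝ) : (∑ z, if c z = l then f z else 0) =
    ∑ z ∈ univ.filter (fun v => c v = l), f z := by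
  rw [sum_filter]

/-- codegrees of Turán's construction -/
noncomputable def tf (c : V → Fin 3) (x y : V) : ℝ := ∑ z, (Tf c x y z : ℝ)

theorem tf_sy (x y : V) : tf c x y = tf c y x := by
  unfold tf
  exact sum_congr rfl fun z _ => by rw [(Tf_sy c).h213 x y z]

theorem tf_up (x y : V) : tf c x y ≤ ∑ k, cl c k * (Rf (c x) (c y) k : ℝ) := by
  rw [← rowsum]
  unfold tf
  refine sum_le_sum fun z _ => ?_
  unfold Tf
  split_ifs
  · exact le_rfl
  · push_cast; positivity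

theorem tf_lo {x y : V} (hxy : x ≠ y) : (∑ k, cl c k * (Rf (c x) (c y) k : ℝ)) - 2 ≤ tf c x y := by
  rw [← rowsum]
  unfold tf
  have h : ∀ z, (Rf (c x) (c y) (c z) : ℝ) ≤ (Tf c x y z : ℝ) +
      ((if z = x then 1 else 0) + (if z = y then 1 else 0)) := by
    intro z
    by_cases h1 : z = x
    · rw [if_pos h1]
      have : (Rf (c x) (c y) (c z) : ℝ) ≤ 1 := by
        rcases Rf_sy.b (c x) (c y) (c z) with e | e <;> rw [e] <;> norm_num
      have h2 : (0 : ℝ) ≤ (Tf c x y z : ℝ) := by positivity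
      have h3 : (0 : ℝ) ≤ (if z = y then 1 else 0) := by split_ifs <;> norm_num
      linarith
    by_cases h2 : z = y
    · rw [if_pos h2]
      have : (Rf (c x) (c y) (c z) : ℝ) ≤ 1 := by
        rcases Rf_sy.b (c x) (c y) (c z) with e | e <;> rw [e] <;> norm_num
      have h2 : (0 : ℝ) ≤ (Tf c x y z : ℝ) := by positivity
      have h3 : (0 : ℝ) ≤ (if z = x then 1 else 0) := by split_ifs <;> norm_num
      linarith
    rw [if_neg h1, if_neg h2, Tf_of hxy (Ne.symm h1) (Ne.symm h2)]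
    linarith
  have h2 := sum_le_sum fun z (_ : z ∈ (univ : Finset V)) => h z
  rw [sum_add_distrib, sum_add_distrib, sum_ite_eq' univ x, sum_ite_eq' univ y, if_pos (mem_univ _),
    if_pos (mem_univ _)] at h2
  linarith

theorem rk_up {a : Fin 3 → ℝ} {u : ℝ} (h : ∀ k, a k ≤ u) (h0 : ∀ k, 0 ≤ a k) (i j : Fin 3) :
    ∑ k, a k * (Rf i j k : ℝ) ≤ 2 * u := by
  have a0 := h 0; have a1 := h 1; have a2 := h 2
  have b0 := h0 0; have b1 := h0 1; have b2 := h0 2
  fin_cases i <;> fin_cases j <;> simp [Fin.sum_univ_three, Rf, rB] <;> linarith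

theorem rk_up1 {a : Fin 3 → ℝ} {u : ℝ} (h : ∀ k, a k ≤ u) (h0 : ∀ k, 0 ≤ a k) (i : Fin 3) :
    ∑ k, a k * (Rf i i k : ℝ) ≤ u := by
  have a0 := h 0; have a1 := h 1; have a2 := h 2
  have b0 := h0 0; have b1 := h0 1; have b2 := h0 2
  fin_cases i <;> simp [Fin.sum_univ_three, Rf, rB] <;> linarith

theorem rk_lo {a : Fin 3 → ℝ} {u : ℝ} (h : ∀ k, u ≤ a k) (h0 : ∀ k, 0 ≤ a k) (i j : Fin 3) :
    u ≤ ∑ k, a k * (Rf i j k : ℝ) := by
  have a0 := h 0; have a1 := h 1; have a2 := h 2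
  have b0 := h0 0; have b1 := h0 1; have b2 := h0 2
  fin_cases i <;> fin_cases j <;> simp [Fin.sum_univ_three, Rf, rB] <;> linarith

theorem rk_lo2 {a : Fin 3 → ℝ} {u : ℝ} (h : ∀ k, u ≤ a k) {i j : Fin 3} (hij : i ≠ j) :
    2 * u ≤ ∑ k, a k * (Rf i j k : ℝ) := by
  have a0 := h 0; have a1 := h 1; have a2 := h 2
  fin_cases i <;> fin_cases j <;> first | exact absurd rfl hij | skip
  all_goals simp [Fin.sum_univ_three, Rf, rB] <;> linarith

end
end Pool.Agent.N461.L2
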