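import Pool.Agent.N461.L2.Clone
import Pool.Agent.N461.L2.Loc

/-! A colouring which is good at every vertex. -/

set_option autoImplicit false
set_option maxRecDepth 100000
set_option maxHeartbeats 4000000
open Finset
open scoped Classical

namespace Pool.Agent.N461.L2
open Pool.Agent.H122R2.N6 Pool.Agent.H37R3.Pen Pool.Agent.H37R3.Cop Pool.Agent.H37R3.CopL
open Pool.Agent.TH773.ST Pool.Agent.N461.TT

section
variable {V : Type} [Fintype V] {E : V → V → V → ℕ}

def mk7 (s : Fin 5 → V) (t : Fin 2 → V) : Fin 7 → V := ![s 0, s 1, s 2, s 3, s 4, t 0, t 1]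

omit [Fintype V] in
theorem mk7_inj {s s' : Fin 5 → V} {t t' : Fin 2 → V} (h : mk7 s t = mk7 s' t') :
    s = s' ∧ t = t' := by
  constructor
  · funext i
    fin_cases i
    exacts [congrFun h 0, congrFun h 1, congrFun h 2, congrFun h 3, congrFun h 4]
  · funext i
    fin_cases i
    exacts [congrFun h 5, congrFun h 6]

theorem card_pull7 {m : ℕ} (e : Fin m → Fin 7) (he : Function.Injective e) (Q : (Fin m → V) → Prop) :
    ((univ : Finset ((Fin 5 → V) × (Fin 2 → V))).filter fun p => Q (mk7 p.1 p.2 ∘ e)).card ≤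
      ((univ : Finset (Fin m → V)).filter Q).card * Fintype.card V ^ (7 - m) := by
  refine le_trans ?_ (card_pull (V := V) e he Q)
  refine card_le_card_of_injOn (fun p => mk7 p.1 p.2) ?_ ?_
  · intro p hp
    exact mem_coe.mpr (mem_filter.mpr ⟨mem_univ _, (mem_filter.mp hp).2⟩)
  · intro p _ q _ h
    exact Prod.ext (mk7_inj h).1 (mk7_inj h).2

/-- number of pairs for which the triples with `v` differ from the rule for a vertex of colour `j` -/
noncomputable def mm (E : V → V → V → ℕ) (c : V → Fin 3) (v : V) (j : Fin 3) : ℕ :=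
  ((univ : Finset (Fin 2 → V)).filter fun t => E v (t 0) (t 1) ≠ Rf j (c (t 0)) (c (t 1))).card

/-- five-tuples with the colours of the pattern -/
noncomputable def SD (c : V → Fin 3) : Finset (Fin 5 → V) := univ.filter fun s => c ∘ s = sg

/-- index set for the triples -/
def I7 : Finset (Fin 7 × Fin 7 × Fin 7) := univ.filter fun a => a.1 < a.2.1 ∧ a.2.1 < a.2.2

def pos4 : Fin 4 → Fin 6 := ![5, 4, 4, 3]
def emb4 : Fin 4 → Fin 5 → Fin 7 := ![![0, 1, 2, 3, 4], ![0, 1, 2, 3, 5], ![0, 1, 2, 3, 6],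
  ![0, 1, 2, 5, 6]]

omit [Fintype V] in
/-- the deterministic part -/
theorem det_part {c : V → Fin 3} {v : V} {s : Fin 5 → V} {t : Fin 2 → V} (hs : c ∘ s = sg)
    (h1 : ∀ a ∈ I7, E (mk7 s t a.1) (mk7 s t a.2.1) (mk7 s t a.2.2) =
      Rf (c (mk7 s t a.1)) (c (mk7 s t a.2.1)) (c (mk7 s t a.2.2)))
    (h2 : ∀ i : Fin 4, TT E (Fin.insertNth (pos4 i) v (mk7 s t ∘ emb4 i) : Fin 6 → V)) :
    E v (t 0) (t 1) = Rf (colS E s v) (c (t 0)) (c (t 1)) := by
  have hg : ∀ i j k : Fin 7, i < j → j < k → E (mk7 s t i) (mk7 s t j) (mk7 s t k) =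
      Rf (c (mk7 s t i)) (c (mk7 s t j)) (c (mk7 s t k)) := fun i j k hij hjk =>
    h1 (i, j, k) (mem_filter.mpr ⟨mem_univ _, hij, hjk⟩)
  have hc : ∀ i, c (s i) = sg i := fun i => congrFun hs i
  have m5 : ∀ i : Fin 5, mk7 s t (Fin.castLE (by norm_num) i) = s i := by
    intro i; fin_cases i <;> rfl
  have seed : Seed E s := by
    intro i j k hij hjk
    have := hg (Fin.castLE (by norm_num) i) (Fin.castLE (by norm_num) j)
      (Fin.castLE (by norm_num) k) hij hjk
    rw [m5, m5, m5, hc, hc, hc] at this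
    exact this
  have e0 : Ext E s (t 0) (c (t 0)) := by
    intro i j hij
    have := hg (Fin.castLE (by norm_num) i) (Fin.castLE (by norm_num) j) 5 hij (by
      have := j.2
      rw [Fin.lt_def]
      show (j : ℕ) < 5
      exact this)
    rw [m5, m5, hc, hc] at this
    exact this
  have e1 : Ext E s (t 1) (c (t 1)) := by
    intro i j hij
    have := hg (Fin.castLE (by norm_num) i) (Fin.castLE (by norm_num) j) 6 hij (by
      have := j.2
      rw [Fin.lt_def]
      show (j : ℕ) < 6
      omega)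
    rw [m5, m5, hc, hc] at this
    exact this
  have ttg : TT E ![s 0, s 1, s 2, s 3, t 0, t 1] := by
    refine ⟨fun i => c ((![s 0, s 1, s 2, s 3, t 0, t 1] : Fin 6 → V) i), fun i j k hij hjk => ?_⟩
    have em : ∀ i : Fin 6, (![s 0, s 1, s 2, s 3, t 0, t 1] : Fin 6 → V) i =
        mk7 s t ((![0, 1, 2, 3, 5, 6] : Fin 6 → Fin 7) i) := by
      intro i; fin_cases i <;> rfl
    have mono : ∀ i j : Fin 6, i < j → (![0, 1, 2, 3, 5, 6] : Fin 6 → Fin 7) i <
      (![0, 1, 2, 3, 5, 6] : Fin 6 → Fin 7) j := by decide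
    simp only [em]
    exact hg _ _ _ (mono i j hij) (mono j k hjk)
  have q0 : (Fin.insertNth (pos4 0) v (mk7 s t ∘ emb4 0) : Fin 6 → V) =
      ![s 0, s 1, s 2, s 3, s 4, v] := by
    funext j; fin_cases j <;> rfl
  have q1 : (Fin.insertNth (pos4 1) v (mk7 s t ∘ emb4 1) : Fin 6 → V) =
      ![s 0, s 1, s 2, s 3, v, t 0] := by
    funext j; fin_cases j <;> rfl
  have q2 : (Fin.insertNth (pos4 2) v (mk7 s t ∘ emb4 2) : Fin 6 → V) =
      ![s 0, s 1, s 2, s 3, v, t 1] := by
    funext j; fin_cases j <;> rfl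
  have q3 : (Fin.insertNth (pos4 3) v (mk7 s t ∘ emb4 3) : Fin 6 → V) =
      ![s 0, s 1, s 2, v, t 0, t 1] := by
    funext j; fin_cases j <;> rfl
  exact triple_of_tt seed (colS_spec (ext_of_tt seed (q0 ▸ h2 0))) e0 e1 (q1 ▸ h2 1) (q2 ▸ h2 2)
    ttg (q3 ▸ h2 3)

theorem I7_card : I7.card ≤ 343 := by
  refine (card_le_univ _).trans ?_
  simp

theorem W_card (c : V → Fin 3) (v : V) :
    (((SD c) ×ˢ (univ : Finset (Fin 2 → V))).filter fun p =>
      E v (p.2 0) (p.2 1) ≠ Rf (colS E p.1 v) (c (p.2 0)) (c (p.2 1))).card ≤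
      343 * (bad E c * Fintype.card V ^ 4) +
        ∑ i : Fin 4, D5 E (pos4 i) v * Fintype.card V ^ 2 := by
  have hsub : (((SD c) ×ˢ (univ : Finset (Fin 2 → V))).filter fun p =>
      E v (p.2 0) (p.2 1) ≠ Rf (colS E p.1 v) (c (p.2 0)) (c (p.2 1))) ⊆
      (I7.biUnion fun a => (univ : Finset ((Fin 5 → V) × (Fin 2 → V))).filter fun p =>
        (fun y : Fin 3 → V => E (y 0) (y 1) (y 2) ≠ Rf (c (y 0)) (c (y 1)) (c (y 2)))
          (mk7 p.1 p.2 ∘ ![a.1, a.2.1, a.2.2])) ∪
      ((univ : Finset (Fin 4)).biUnion fun i =>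
        (univ : Finset ((Fin 5 → V) × (Fin 2 → V))).filter fun p =>
          (fun y : Fin 5 → V => ¬ TT E (Fin.insertNth (pos4 i) v y : Fin 6 → V))
            (mk7 p.1 p.2 ∘ emb4 i)) := by
    rintro ⟨s, t⟩ hp
    obtain ⟨hp1, hp2⟩ := mem_filter.mp hp
    have hs : c ∘ s = sg := (mem_filter.mp (mem_product.mp hp1).1).2
    by_contra hno
    rw [mem_union, not_or, mem_biUnion, mem_biUnion] at hno
    obtain ⟨n1, n2⟩ := hno
    push Not at n1 n2
    apply hp2
    refine det_part hs (fun a ha => ?_) fun i => ?_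
    · by_contra hne
      exact n1 a ha (mem_filter.mpr ⟨mem_univ _, hne⟩)
    · by_contra hne
      exact n2 i (mem_univ _) (mem_filter.mpr ⟨mem_univ _, hne⟩)
  refine (card_le_card hsub).trans ((card_union_le _ _).trans ?_)
  refine Nat.add_le_add (card_biUnion_le.trans ?_) (card_biUnion_le.trans ?_)
  · calc _ ≤ ∑ _a ∈ I7, bad E c * Fintype.card V ^ 4 := by
          refine sum_le_sum fun a ha => ?_
          obtain ⟨-, h1, h2⟩ := mem_filter.mp ha
          have hinj : Function.Injective ![a.1, a.2.1, a.2.2] := by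
            intro i j hij
            fin_cases i <;> fin_cases j <;> first | rfl | skip
            · exact absurd hij h1.ne
            · exact absurd hij (h1.trans h2).ne
            · exact absurd hij h1.ne'
            · exact absurd hij h2.ne
            · exact absurd hij (h1.trans h2).ne'
            · exact absurd hij h2.ne'
          have hh := card_pull7 (V := V) ![a.1, a.2.1, a.2.2] hinj
            (fun y : Fin 3 → V => E (y 0) (y 1) (y 2) ≠ Rf (c (y 0)) (c (y 1)) (c (y 2)))
          refine le_trans (le_of_eq ?_) (hh.trans (le_of_eq ?_))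
          · congr 1; ext p; simp only [mem_filter]
          · unfold bad
            show _ * Fintype.card V ^ 4 = _
            congr 2; ext p; simp only [mem_filter]
      _ = I7.card * (bad E c * Fintype.card V ^ 4) := by rw [sum_const, smul_eq_mul]
      _ ≤ 343 * (bad E c * Fintype.card V ^ 4) := Nat.mul_le_mul_right _ I7_card
  · refine sum_le_sum fun i _ => ?_
    have hinj : Function.Injective (emb4 i) := by fin_cases i <;> decide
    have hh := card_pull7 (V := V) (emb4 i) hinj
      (fun y : Fin 5 → V => ¬ TT E (Fin.insertNth (pos4 i) v y : Fin 6 → V))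
    refine le_trans (le_of_eq ?_) (hh.trans (le_of_eq ?_))
    · congr 1; ext p; simp only [mem_filter]
    · unfold D5
      show _ * Fintype.card V ^ 2 = _
      congr 2; ext p; simp only [mem_filter]

/-- for some colour the vertex `v` fits well -/
theorem exists_j (c : V → Fin 3) (v : V) : ∃ j : Fin 3,
    (SD c).card * mm E c v j ≤ 343 * (bad E c * Fintype.card V ^ 4) +
        ∑ i : Fin 4, D5 E (pos4 i) v * Fintype.card V ^ 2 := by
  rcases (SD c).eq_empty_or_nonempty with h | h
  · exact ⟨0, by rw [h, card_empty, Nat.zero_mul]; exact Nat.zero_le _⟩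
  · obtain ⟨s, hs, hmin⟩ := exists_min_image (SD c) (fun s => mm E c v (colS E s v)) h
    refine ⟨colS E s v, le_trans ?_ (W_card c v)⟩
    have h1 : (((SD c) ×ˢ (univ : Finset (Fin 2 → V))).filter fun p =>
      E v (p.2 0) (p.2 1) ≠ Rf (colS E p.1 v) (c (p.2 0)) (c (p.2 1))).card =
        ∑ s ∈ SD c, mm E c v (colS E s v) := by
      rw [card_filter, sum_product]
      refine sum_congr rfl fun s _ => ?_
      unfold mm
      rw [card_filter]
    rw [h1, ← smul_eq_mul]
    exact card_nsmul_le_sum _ _ _ hmin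

theorem SD_card (c : V → Fin 3) : ((SD c).card : ℝ) =
    cl c 0 * cl c 0 * cl c 1 * cl c 1 * cl c 2 := by
  have h : SD c = Fintype.piFinset fun i => (univ : Finset V).filter fun v => c v = sg i := by
    ext s
    rw [Fintype.mem_piFinset]
    unfold SD
    rw [mem_filter]
    constructor
    · rintro ⟨-, h⟩ i
      exact mem_filter.mpr ⟨mem_univ _, congrFun h i⟩
    · intro h
      exact ⟨mem_univ _, funext fun i => (mem_filter.mp (h i)).2⟩
  rw [h, Fintype.card_piFinset]
  push_cast
  rw [Fin.prod_univ_five]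
  rfl

end
end Pool.Agent.N461.L2
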