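import Pool.Agent.N461.L2.Loc

/-! The comparison of sums of squares of codegrees, continued. -/

set_option autoImplicit false
set_option maxRecDepth 100000
set_option maxHeartbeats 4000000
open Finset
open scoped Classical

namespace Pool.Agent.N461.L2
open Pool.Agent.H122R2.N6 Pool.Agent.TH773.ST

section
variable {V : Type} [Fintype V] {E : V → V → V → ℕ} {c : V → Fin 3} {N : ℝ}

/-- the 3-graph is close to Turán's construction at every vertex -/
structure Hyp (E : V → V → V → ℕ) (c : V → Fin 3) (N : ℝ) : Prop where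
  hE : Sy E
  hK : NoK4 E
  hd : ∀ x z, E x x z = 0
  hN : N = Fintype.card V
  hN6 : 10 ^ 6 ≤ N
  hu : ∀ k, cl c k ≤ N / 3 + N / 1000
  hl : ∀ k, N / 3 - N / 1000 ≤ cl c k
  hm : ∀ v, ∑ p, ∑ q, Mf E c v p q ≤ N ^ 2 / 10 ^ 9

theorem cl0 (k : Fin 3) : 0 ≤ cl c k := by unfold cl; positivity

/-- heavy pairs -/
noncomputable def hv (E : V → V → V → ℕ) (c : V → Fin 3) (N : ℝ) (x y : V) : ℝ :=
  if N / 1000 ≤ ∑ z, Mf E c x y z then 1 else 0

theorem hv01 (x y : V) : hv E c N x y = 0 ∨ hv E c N x y = 1 := by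
  unfold hv; split_ifs <;> simp

theorem hv0 (x y : V) : 0 ≤ hv E c N x y := by
  rcases hv01 (E := E) (c := c) (N := N) x y with e | e <;> rw [e]; norm_num

theorem hv_light {x y : V} (h : hv E c N x y = 0) : ∑ z, Mf E c x y z < N / 1000 := by
  unfold hv at h
  by_contra h2
  push Not at h2
  rw [if_pos h2] at h
  exact absurd h one_ne_zero

theorem hv_heavy {x y : V} (h : hv E c N x y = 1) : N / 1000 ≤ ∑ z, Mf E c x y z := by
  unfold hv at h
  by_contra h2
  rw [if_neg h2] at h
  exact absurd h zero_ne_one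

theorem t_0 (x y : V) : 0 ≤ tf c x y := by unfold tf; positivity

theorem t_hi (H : Hyp E c N) (x y : V) : tf c x y ≤ 2 * (N / 3 + N / 1000) :=
  (tf_up x y).trans (rk_up H.hu cl0 _ _)

theorem t_hi1 (H : Hyp E c N) {x y : V} (h : c x = c y) : tf c x y ≤ N / 3 + N / 1000 := by
  refine (tf_up x y).trans ?_
  rw [← h]
  exact rk_up1 H.hu cl0 _

theorem t_lo (H : Hyp E c N) {x y : V} (h : x ≠ y) : N / 3 - N / 1000 - 2 ≤ tf c x y := by
  have := rk_lo (u := N / 3 - N / 1000) H.hl (cl0 (c := c)) (c x) (c y)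
  linarith [tf_lo (c := c) h]

theorem t_lo2 (H : Hyp E c N) {x y : V} (h : c x ≠ c y) :
    2 * (N / 3 - N / 1000) - 2 ≤ tf c x y := by
  have := rk_lo2 (u := N / 3 - N / 1000) (a := cl c) H.hl h
  linarith [tf_lo (c := c) (x := x) (y := y) (fun e => h (by rw [e]))]

theorem rowh (H : Hyp E c N) (x : V) : ∑ y, hv E c N x y ≤ 1 / 10 ^ 6 * N := by
  have hN : 0 < N := by have := H.hN6; linarith
  have h1 : (∑ y, hv E c N x y) * (N / 1000) ≤ N ^ 2 / 10 ^ 9 := by
    refine le_trans ?_ (H.hm x)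
    rw [sum_mul]
    refine sum_le_sum fun y _ => ?_
    rcases hv01 (E := E) (c := c) (N := N) x y with e | e
    · rw [e, zero_mul]; exact sum_nonneg fun z _ => Mf0 x y z
    · rw [e, one_mul]; exact hv_heavy e
  have h2 : (∑ y, hv E c N x y) * (N / 1000) ≤ (1 / 10 ^ 6 * N) * (N / 1000) := by
    refine h1.trans (le_of_eq ?_)
    ring
  exact le_of_mul_le_mul_right h2 (by positivity)

/-- a class is covered by missing triples -/
theorem cover_sum (H : Hyp E c N) {x y z : V} (h : Bf E c x y z = 1) :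
    ∃ l : Fin 3, c x ≠ l ∧ c y ≠ l ∧ c z ≠ l ∧
      cl c l ≤ (∑ w ∈ univ.filter (fun v => c v = l), Mf E c x y w) + ∑ w, Mf E c x z w +
        ∑ w, Mf E c y z w := by
  have hb : E x y z = 1 ∧ Tf c x y z = 0 := by
    unfold Bf at h
    by_contra h2
    rw [if_neg h2] at h
    exact zero_ne_one h
  obtain ⟨l, f1, f2, f3, hl⟩ := cover H.hE H.hK H.hd hb.1 hb.2
  refine ⟨l, f1, f2, f3, ?_⟩
  have e1 : cl c l = ∑ w ∈ univ.filter (fun v => c v = l), (1 : ℝ) := by
    rw [sum_const, nsmul_eq_mul, mul_one]; rfl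
  have e2 : ∑ w ∈ univ.filter (fun v => c v = l), (1 : ℝ) ≤
      ∑ w ∈ univ.filter (fun v => c v = l), (Mf E c x y w + Mf E c x z w + Mf E c y z w) :=
    sum_le_sum fun w hw => hl w (mem_filter.mp hw).2
  rw [sum_add_distrib, sum_add_distrib] at e2
  have e3 : ∑ w ∈ univ.filter (fun v => c v = l), Mf E c x z w ≤ ∑ w, Mf E c x z w :=
    sum_le_sum_of_subset_of_nonneg (filter_subset _ _) fun w _ _ => Mf0 x z w
  have e4 : ∑ w ∈ univ.filter (fun v => c v = l), Mf E c y z w ≤ ∑ w, Mf E c y z w :=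
    sum_le_sum_of_subset_of_nonneg (filter_subset _ _) fun w _ _ => Mf0 y z w
  linarith

theorem part_le (l : Fin 3) (x y : V) :
    ∑ w ∈ univ.filter (fun v => c v = l), Mf E c x y w ≤ ∑ w, Mf E c x y w :=
  sum_le_sum_of_subset_of_nonneg (filter_subset _ _) fun w _ _ => Mf0 x y w

theorem B_heavy (H : Hyp E c N) (x y z : V) :
    Bf E c x y z ≤ Bf E c x y z * (hv E c N x y + hv E c N x z + hv E c N y z) := by
  rcases B01 (E := E) (c := c) x y z with e | e
  · rw [e, zero_mul]
  · rw [e, one_mul]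
    by_contra hcon
    push Not at hcon
    have a1 := hv0 (E := E) (c := c) (N := N) x y
    have a2 := hv0 (E := E) (c := c) (N := N) x z
    have a3 := hv0 (E := E) (c := c) (N := N) y z
    have b1 : hv E c N x y = 0 := by
      rcases hv01 (E := E) (c := c) (N := N) x y with f | f
      · exact f
      · linarith
    have b2 : hv E c N x z = 0 := by
      rcases hv01 (E := E) (c := c) (N := N) x z with f | f
      · exact f
      · linarith
    have b3 : hv E c N y z = 0 := by
      rcases hv01 (E := E) (c := c) (N := N) y z with f | f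
      · exact f
      · linarith
    obtain ⟨l, -, -, -, hl⟩ := cover_sum H e
    have := part_le (E := E) (c := c) l x y
    have := hv_light b1
    have := hv_light b2
    have := hv_light b3
    have := H.hl l
    have := H.hN6
    linarith

theorem hv_sy (hE : Sy E) (x y : V) : hv E c N x y = hv E c N y x := by
  unfold hv
  have : ∑ z, Mf E c x y z = ∑ z, Mf E c y x z := sum_congr rfl fun z _ => M12 hE x y z
  rw [this]

theorem light_b (H : Hyp E c N) {x y : V} (h : hv E c N x y = 0) :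
    ∑ z, Bf E c x y z ≤ 2 * (1 / 10 ^ 6) * N := by
  have h1 : ∑ z, Bf E c x y z ≤ ∑ z, (hv E c N x z + hv E c N y z) := by
    refine sum_le_sum fun z _ => (B_heavy H x y z).trans ?_
    rw [h, zero_add]
    calc Bf E c x y z * (hv E c N x z + hv E c N y z) ≤ 1 * (hv E c N x z + hv E c N y z) :=
          mul_le_mul_of_nonneg_right (Bf1 x y z) (add_nonneg (hv0 x z) (hv0 y z))
      _ = _ := one_mul _
  rw [sum_add_distrib] at h1
  linarith [rowh H x, rowh H y]

/-- the vertices which form an extra edge of the second kind with a pair inside a class -/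
noncomputable def Z2 (E : V → V → V → ℕ) (c : V → Fin 3) (x y : V) : Finset V :=
  univ.filter fun z => (E x y z = 1 ∧ Tf c x y z = 0) ∧ c x = c y ∧ c z ≠ c x

theorem Z2_le (H : Hyp E c N) (x y : V) : ((Z2 E c x y).card : ℝ) ≤ N / 10 ^ 4 := by
  set q : ℝ := ((Z2 E c x y).card : ℝ) with hq
  have h1 : q * q - q ≤ 2 * (N ^ 2 / 10 ^ 9) := by
    have e1 : q * q - q = ∑ z ∈ Z2 E c x y, ∑ w ∈ Z2 E c x y, ((1 : ℝ) - if z = w then 1 else 0) := by
      have : ∀ z ∈ Z2 E c x y, ∑ w ∈ Z2 E c x y, ((1 : ℝ) - if z = w then 1 else 0) = q - 1 := by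
        intro z hz
        rw [sum_sub_distrib, sum_const, nsmul_eq_mul, mul_one, sum_ite_eq, if_pos hz]
      rw [sum_congr rfl this, sum_const, nsmul_eq_mul]
      ring
    rw [e1]
    have e2 : ∑ z ∈ Z2 E c x y, ∑ w ∈ Z2 E c x y, ((1 : ℝ) - if z = w then 1 else 0) ≤
        ∑ z ∈ Z2 E c x y, ∑ w ∈ Z2 E c x y, (Mf E c x z w + Mf E c y z w) := by
      refine sum_le_sum fun z hz => sum_le_sum fun w hw => ?_
      by_cases hzw : z = w
      · rw [if_pos hzw, sub_self]
        exact add_nonneg (Mf0 _ _ _) (Mf0 _ _ _)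
      · rw [if_neg hzw, sub_zero]
        obtain ⟨-, ⟨a1, a2⟩, a3, a4⟩ := mem_filter.mp hz
        obtain ⟨-, ⟨b1, b2⟩, b3, b4⟩ := mem_filter.mp hw
        exact special H.hE H.hK H.hd hzw a1 a2 b1 b2 a3 a4 b4
    refine e2.trans ?_
    have e3 : ∑ z ∈ Z2 E c x y, ∑ w ∈ Z2 E c x y, (Mf E c x z w + Mf E c y z w) ≤
        ∑ z, ∑ w, (Mf E c x z w + Mf E c y z w) := by
      refine (sum_le_sum fun z _ => sum_le_sum_of_subset_of_nonneg (subset_univ _)
        fun w _ _ => add_nonneg (Mf0 _ _ _) (Mf0 _ _ _)).trans ?_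
      exact sum_le_sum_of_subset_of_nonneg (subset_univ _)
        fun z _ _ => sum_nonneg fun w _ => add_nonneg (Mf0 _ _ _) (Mf0 _ _ _)
    refine e3.trans ?_
    simp only [sum_add_distrib]
    linarith [H.hm x, H.hm y]
  by_contra hcon
  push Not at hcon
  have hN := H.hN6
  have h3 : (N / 10 ^ 4) * (N / 10 ^ 4 - 1) ≤ q * (q - 1) := by
    have h4 : (1 : ℝ) ≤ N / 10 ^ 4 := by linarith
    exact mul_le_mul hcon.le (by linarith) (by linarith) (by linarith)
  have h5 : 10 ^ 6 * N ≤ N * N := mul_le_mul_of_nonneg_right hN (by linarith)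
  nlinarith

/-- the heavy pairs lose -/
theorem main_neg (H : Hyp E c N) {x y : V} (h : hv E c N x y = 1) :
    ((tf c x y + ∑ z, Bf E c x y z - ∑ z, Mf E c x y z) ^ 2 - tf c x y ^ 2) +
        ∑ z, Bf E c x y z * ((2 * tf c x z + 2 * (1 / 10 ^ 6) * N) +
          (2 * tf c y z + 2 * (1 / 10 ^ 6) * N)) -
        ∑ z, Mf E c x y z * ((2 * tf c x z - 1 / 1000 * N) + (2 * tf c y z - 1 / 1000 * N)) +
        6 * (1 / 10 ^ 6) * N ^ 2 ≤ - (N ^ 2 / 1000) := by
  have hN6 := H.hN6
  have hN : 0 < N := by linarith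
  set m := ∑ z, Mf E c x y z with hm
  set b := ∑ z, Bf E c x y z with hb
  have hmh : N / 1000 ≤ m := hv_heavy h
  have hmt : m ≤ tf c x y := sum_le_sum fun z _ => M_le x y z
  have ht := t_hi H x y
  have ht0 := t_0 (c := c) x y
  have hb0 : 0 ≤ b := sum_nonneg fun z _ => Bf0 x y z
  have wM : ∀ z, Mf E c x y z * (4 * N / 3 - 7 * N / 1000) ≤
      Mf E c x y z * ((2 * tf c x z - 1 / 1000 * N) + (2 * tf c y z - 1 / 1000 * N)) := by
    intro z
    by_cases hz : E x y z = 0 ∧ Tf c x y z = 1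
    · obtain ⟨-, n1, n2⟩ := Tf_ne hz.2
      refine mul_le_mul_of_nonneg_left ?_ (Mf0 x y z)
      linarith [t_lo H n1, t_lo H n2]
    · have : Mf E c x y z = 0 := by unfold Mf; rw [if_neg hz]
      rw [this, zero_mul, zero_mul]
  rcases le_or_gt b (2 * (1 / 10 ^ 6) * N) with hbs | hbl
  · -- few extra edges
    have s1 : ∑ z, Bf E c x y z * ((2 * tf c x z + 2 * (1 / 10 ^ 6) * N) +
          (2 * tf c y z + 2 * (1 / 10 ^ 6) * N)) ≤ b * (5 * N) := by
      rw [hb, sum_mul]
      refine sum_le_sum fun z _ => mul_le_mul_of_nonneg_left ?_ (Bf0 x y z)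
      linarith [t_hi H x z, t_hi H y z]
    have s2 : m * (4 * N / 3 - 7 * N / 1000) ≤
        ∑ z, Mf E c x y z * ((2 * tf c x z - 1 / 1000 * N) + (2 * tf c y z - 1 / 1000 * N)) := by
      rw [hm, sum_mul]
      exact sum_le_sum fun z _ => wM z
    have s3 : (tf c x y + b - m) ^ 2 - tf c x y ^ 2 ≤ 0 := by
      have e : (tf c x y + b - m) ^ 2 - tf c x y ^ 2 = (b - m) * (2 * tf c x y + b - m) := by ring
      rw [e]
      exact mul_nonpos_of_nonpos_of_nonneg (by linarith) (by linarith)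
    have s4 : b * (5 * N) ≤ (2 * (1 / 10 ^ 6) * N) * (5 * N) :=
      mul_le_mul_of_nonneg_right hbs (by linarith)
    have s5 : (N / 1000) * (4 * N / 3 - 7 * N / 1000) ≤ m * (4 * N / 3 - 7 * N / 1000) :=
      mul_le_mul_of_nonneg_right hmh (by linarith)
    nlinarith [sq_nonneg N]
  · -- many extra edges
    obtain ⟨z0, hz0, hx0, hy0⟩ : ∃ z, Bf E c x y z = 1 ∧ hv E c N x z = 0 ∧ hv E c N y z = 0 := by
      by_contra hcon
      push Not at hcon
      have h1 : b ≤ ∑ z, (hv E c N x z + hv E c N y z) := by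
        refine sum_le_sum fun z _ => ?_
        rcases B01 (E := E) (c := c) x y z with e | e
        · rw [e]; exact add_nonneg (hv0 x z) (hv0 y z)
        · rw [e]
          rcases hv01 (E := E) (c := c) (N := N) x z with f | f
          · rcases hv01 (E := E) (c := c) (N := N) y z with g | g
            · exact absurd g (hcon z e f)
            · rw [f, g]; norm_num
          · rw [f]; linarith [hv0 (E := E) (c := c) (N := N) y z]
      rw [sum_add_distrib] at h1
      linarith [rowh H x, rowh H y]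
    obtain ⟨l, l1, l2, -, hl⟩ := cover_sum H hz0
    have k1 := hv_light hx0
    have k2 := hv_light hy0
    have k3 := H.hl l
    set ml := ∑ w ∈ univ.filter (fun v => c v = l), Mf E c x y w with hml
    have hml1 : N / 3 - 3 * N / 1000 ≤ ml := by linarith
    have hml2 : ml ≤ m := part_le l x y
    have s2 : ml * (8 * N / 3 - 11 * N / 1000) ≤
        ∑ z, Mf E c x y z * ((2 * tf c x z - 1 / 1000 * N) + (2 * tf c y z - 1 / 1000 * N)) := by
      rw [hml, sum_mul]
      refine le_trans (sum_le_sum fun w hw => ?_) (sum_le_sum_of_subset_of_nonneg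
        (filter_subset (fun v => c v = l) univ) fun w _ _ => ?_)
      · have hw2 := (mem_filter.mp hw).2
        refine mul_le_mul_of_nonneg_left ?_ (Mf0 x y w)
        have q1 := t_lo2 H (x := x) (y := w) (by rw [hw2]; exact l1)
        have q2 := t_lo2 H (x := y) (y := w) (by rw [hw2]; exact l2)
        linarith
      · refine le_trans ?_ (wM w)
        exact mul_nonneg (Mf0 x y w) (by linarith)
    obtain ⟨k0, hk0⟩ := r2 (c x) (c y)
    have dec : ∀ z, Bf E c x y z = 1 → z ∈ Z2 E c x y ∨ (c z = k0 ∧ (c x = c z ∨ c y = c z)) := by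
      intro z hz
      have hbz : E x y z = 1 ∧ Tf c x y z = 0 := by
        unfold Bf at hz
        by_contra h2
        rw [if_neg h2] at hz
        exact zero_ne_one hz
      obtain ⟨a1, a2, a3⟩ := deg0 H.hE H.hd hbz.1
      have hr : Rf (c x) (c y) (c z) = 0 := by rw [← Tf_of a1 a2 a3]; exact hbz.2
      by_cases hsp : c x = c y ∧ c z ≠ c x
      · exact Or.inl (mem_filter.mpr ⟨mem_univ _, hbz, hsp⟩)
      · exact Or.inr ⟨(hk0 _ hr).resolve_left hsp, r3 _ _ _ hr hsp⟩
    have hZ := Z2_le H x y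
    have i0 : ∀ z, (0 : ℝ) ≤ (if c z = k0 then 1 else 0) := fun z => by split_ifs <;> norm_num
    have j0 : ∀ z, (0 : ℝ) ≤ (if z ∈ Z2 E c x y then 1 else 0) := fun z => by
      split_ifs <;> norm_num
    have sk : ∑ z, (if c z = k0 then (1 : ℝ) else 0) = cl c k0 := by
      rw [← sum_filter, sum_const, nsmul_eq_mul, mul_one]; rfl
    have sz : ∑ z, (if z ∈ Z2 E c x y then (1 : ℝ) else 0) = ((Z2 E c x y).card : ℝ) := by
      rw [← sum_filter, filter_mem_eq_inter, univ_inter, sum_const, nsmul_eq_mul, mul_one]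
    have hbU : b ≤ cl c k0 + ((Z2 E c x y).card : ℝ) := by
      rw [← sk, ← sz, ← sum_add_distrib]
      refine sum_le_sum fun z _ => ?_
      rcases B01 (E := E) (c := c) x y z with e | e
      · rw [e]; exact add_nonneg (i0 z) (j0 z)
      · rw [e]
        rcases dec z e with f | f
        · rw [if_pos f]; linarith [i0 z]
        · rw [if_pos f.1]; linarith [j0 z]
    have s1 : ∑ z, Bf E c x y z * ((2 * tf c x z + 2 * (1 / 10 ^ 6) * N) +
          (2 * tf c y z + 2 * (1 / 10 ^ 6) * N)) ≤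
          cl c k0 * (2 * N + 7 * N / 1000) + ((Z2 E c x y).card : ℝ) * (5 * N) := by
      rw [← sk, ← sz, sum_mul, sum_mul, ← sum_add_distrib]
      refine sum_le_sum fun z _ => ?_
      have u1 := t_hi H x z
      have u2 := t_hi H y z
      have p1 : 0 ≤ (if c z = k0 then (1 : ℝ) else 0) * (2 * N + 7 * N / 1000) :=
        mul_nonneg (i0 z) (by linarith)
      have p2 : 0 ≤ (if z ∈ Z2 E c x y then (1 : ℝ) else 0) * (5 * N) :=
        mul_nonneg (j0 z) (by linarith)
      rcases B01 (E := E) (c := c) x y z with e | e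
      · rw [e, zero_mul]; exact add_nonneg p1 p2
      · rw [e, one_mul]
        rcases dec z e with f | f
        · rw [if_pos f, one_mul]
          linarith
        · rw [if_pos f.1, one_mul]
          rcases f.2 with g | g
          · have := t_hi1 H g
            linarith
          · have := t_hi1 H g
            linarith
    have hk := H.hu k0
    have s4 : cl c k0 * (2 * N + 7 * N / 1000) ≤ (N / 3 + N / 1000) * (2 * N + 7 * N / 1000) :=
      mul_le_mul_of_nonneg_right hk (by linarith)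
    have s5 : ((Z2 E c x y).card : ℝ) * (5 * N) ≤ (N / 10 ^ 4) * (5 * N) :=
      mul_le_mul_of_nonneg_right hZ (by linarith)
    have s6 : (N / 3 - 3 * N / 1000) * (8 * N / 3 - 11 * N / 1000) ≤
        ml * (8 * N / 3 - 11 * N / 1000) :=
      mul_le_mul_of_nonneg_right hml1 (by linarith)
    have s3 : (tf c x y + b - m) ^ 2 - tf c x y ^ 2 ≤ (41 * N / 10 ^ 4) * (3 * N) := by
      have e : (tf c x y + b - m) ^ 2 - tf c x y ^ 2 = (b - m) * (2 * tf c x y + b - m) := by ring
      rw [e]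
      have e0 : 0 ≤ 2 * tf c x y + b - m := by linarith
      rcases le_or_gt (b - m) 0 with g | g
      · have := mul_nonpos_of_nonpos_of_nonneg g e0
        have : 0 ≤ (41 * N / 10 ^ 4) * (3 * N) := by positivity
        linarith
      · exact mul_le_mul (by linarith) (by linarith) e0 (by positivity)
    nlinarith [sq_nonneg N]

theorem local_lt (H : Hyp E c N) (hbad : ∃ x y z, E x y z = 1 ∧ Tf c x y z = 0) :
    ∑ x, ∑ y, (∑ z, (E x y z : ℝ)) ^ 2 < ∑ x, ∑ y, (∑ z, (Tf c x y z : ℝ)) ^ 2 := by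
  have hN6 := H.hN6
  have hN : 0 < N := by linarith
  have hE := H.hE
  have key := abs_main (V := V) (t := tf c) (h := hv E c N) (B := Bf E c) (M := Mf E c) (N := N)
    (ε := 1 / 1000) (θ := 1 / 10 ^ 6) hN.le (by norm_num) (by norm_num) tf_sy (hv_sy hE)
    (B12 hE) (B23 hE) (M12 hE) (M23 hE) Bf0 Mf0 Mf1 hv01 t_0
    (fun x y => (t_hi H x y).trans (by linarith)) (fun x y h => light_b H h)
    (fun x y h => by have := hv_light h; linarith) (B_heavy H) (fun x y z => by
      by_cases hz : E x y z = 0 ∧ Tf c x y z = 1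
      · obtain ⟨n0, -, -⟩ := Tf_ne hz.2
        refine mul_nonneg (Mf0 x y z) ?_
        linarith [t_lo H n0]
      · have : Mf E c x y z = 0 := by unfold Mf; rw [if_neg hz]
        rw [this, zero_mul]) (rowh H)
  have e1 : ∀ x y, ∑ z, (E x y z : ℝ) = tf c x y + ∑ z, Bf E c x y z - ∑ z, Mf E c x y z := by
    intro x y
    unfold tf
    rw [← sum_add_distrib, ← sum_sub_distrib]
    exact sum_congr rfl fun z _ => E_eq hE x y z
  have e2 : ∑ x, ∑ y, (∑ z, (E x y z : ℝ)) ^ 2 - ∑ x, ∑ y, (∑ z, (Tf c x y z : ℝ)) ^ 2 =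
      ∑ x, ∑ y, ((tf c x y + ∑ z, Bf E c x y z - ∑ z, Mf E c x y z) ^ 2 - tf c x y ^ 2) := by
    simp only [e1, sum_sub_distrib]
    rfl
  rw [← e2] at key
  have e3 : ∑ x, ∑ y, hv E c N x y * (((tf c x y + ∑ z, Bf E c x y z - ∑ z, Mf E c x y z) ^ 2 -
      tf c x y ^ 2) + ∑ z, Bf E c x y z * ((2 * tf c x z + 2 * (1 / 10 ^ 6) * N) +
          (2 * tf c y z + 2 * (1 / 10 ^ 6) * N)) -
        ∑ z, Mf E c x y z * ((2 * tf c x z - 1 / 1000 * N) + (2 * tf c y z - 1 / 1000 * N)) +
        6 * (1 / 10 ^ 6) * N ^ 2) ≤ ∑ x, ∑ y, hv E c N x y * (- (N ^ 2 / 1000)) := by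
    refine sum_le_sum fun x _ => sum_le_sum fun y _ => ?_
    rcases hv01 (E := E) (c := c) (N := N) x y with f | f
    · rw [f, zero_mul, zero_mul]
    · rw [f, one_mul, one_mul]
      exact main_neg H f
  have e4 : ∃ x y, hv E c N x y = 1 := by
    obtain ⟨x, y, z, hb⟩ := hbad
    have hB : Bf E c x y z = 1 := by unfold Bf; rw [if_pos hb]
    have := B_heavy H x y z
    rw [hB, one_mul] at this
    rcases hv01 (E := E) (c := c) (N := N) x y with f | f
    · rcases hv01 (E := E) (c := c) (N := N) x z with g | g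
      · rcases hv01 (E := E) (c := c) (N := N) y z with k | k
        · rw [f, g, k] at this; norm_num at this
        · exact ⟨y, z, k⟩
      · exact ⟨x, z, g⟩
    · exact ⟨x, y, f⟩
  have e5 : (1 : ℝ) ≤ ∑ x, ∑ y, hv E c N x y := by
    obtain ⟨x, y, f⟩ := e4
    calc (1 : ℝ) = hv E c N x y := f.symm
      _ ≤ ∑ y, hv E c N x y := single_le_sum (f := fun y => hv E c N x y)
          (fun y _ => hv0 x y) (mem_univ y)
      _ ≤ ∑ x, ∑ y, hv E c N x y := single_le_sum (f := fun x => ∑ y, hv E c N x y)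
          (fun x _ => sum_nonneg fun y _ => hv0 x y) (mem_univ x)
  have e6 : ∑ x, ∑ y, hv E c N x y * (- (N ^ 2 / 1000)) =
      (∑ x, ∑ y, hv E c N x y) * (- (N ^ 2 / 1000)) := by
    rw [sum_mul]
    exact sum_congr rfl fun x _ => by rw [sum_mul]
  rw [e6] at e3
  have e7 : 0 < N ^ 2 / 1000 := by positivity
  nlinarith

end
end Pool.Agent.N461.L2
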