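import Pool.Agent.N461.L2.Col
import Pool.Agent.N461.L2.Loc2

/-! The best colouring is good at every vertex. -/

set_option autoImplicit false
set_option maxRecDepth 100000
set_option maxHeartbeats 4000000
open Finset
open scoped Classical

namespace Pool.Agent.N461.L2
open Pool.Agent.H122R2.N6 Pool.Agent.H37R3.Pen Pool.Agent.H37R3.Cop Pool.Agent.H37R3.CopL
open Pool.Agent.TH773.ST Pool.Agent.N461.TT

section
variable {V : Type} [Fintype V] {E : V → V → V → ℕ}

theorem ins_sum (p : Fin 3) (v : V) (F : (Fin 3 → V) → ℝ) :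
    (∑ t : Fin 3 → V, if t p = v then F t else 0) =
      ∑ y : Fin 2 → V, F (Fin.insertNth p v y : Fin 3 → V) := by
  rw [← Equiv.sum_comp (Fin.insertNthEquiv (fun _ => V) p), Fintype.sum_prod_type]
  have h : ∀ a : V, ∑ y : Fin 2 → V, (if (Fin.insertNthEquiv (fun _ => V) p) (a, y) p = v then
      F ((Fin.insertNthEquiv (fun _ => V) p) (a, y)) else 0) =
      if a = v then ∑ y : Fin 2 → V, F (Fin.insertNth p a y : Fin 3 → V) else 0 := by
    intro a
    have h1 : ∀ y : Fin 2 → V, (Fin.insertNthEquiv (fun _ => V) p) (a, y) p = a := by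
      intro y
      simp [Fin.insertNthEquiv]
    simp only [h1]
    split_ifs with h2
    · rfl
    · exact sum_const_zero
  rw [sum_congr rfl fun a _ => h a, sum_ite_eq' univ v, if_pos (mem_univ _)]

theorem two_le {i j : Fin 3} (hij : i ≠ j) (v : V) :
    (∑ t : Fin 3 → V, if t i = v ∧ t j = v then (1 : ℝ) else 0) ≤ Fintype.card V := by
  rw [← sum_filter, sum_const, nsmul_eq_mul, mul_one]
  obtain ⟨k, hk⟩ : ∃ k : Fin 3, ∀ l, l = i ∨ l = j ∨ l = k := by
    revert i j; decide
  have h : ((univ : Finset (Fin 3 → V)).filter fun t => t i = v ∧ t j = v).card ≤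
      (univ : Finset V).card := by
    refine card_le_card_of_injOn (fun t => t k) (fun t _ => mem_coe.mpr (mem_univ _)) ?_
    intro t ht t' ht' he
    have h1 := (mem_filter.mp (mem_coe.mp ht)).2
    have h2 := (mem_filter.mp (mem_coe.mp ht')).2
    funext l
    rcases hk l with rfl | rfl | rfl
    · rw [h1.1, h2.1]
    · rw [h1.2, h2.2]
    · exact he
  rw [card_univ] at h
  exact_mod_cast h

/-- indicator of a bad triple -/
noncomputable def Fb (E : V → V → V → ℕ) (g : V → Fin 3) (t : Fin 3 → V) : ℝ :=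
  if E (t 0) (t 1) (t 2) ≠ Rf (g (t 0)) (g (t 1)) (g (t 2)) then 1 else 0

noncomputable def Gb (E : V → V → V → ℕ) (c : V → Fin 3) (v : V) (j : Fin 3) (a b : V) : ℝ :=
  if E v a b ≠ Rf j (c a) (c b) then 1 else 0

theorem bad_sum (g : V → Fin 3) : (bad E g : ℝ) = ∑ t : Fin 3 → V, Fb E g t := by
  unfold bad Fb
  rw [card_filter]
  push_cast
  exact sum_congr rfl fun t _ => by congr

theorem mm_sum (c : V → Fin 3) (v : V) (j : Fin 3) :
    (mm E c v j : ℝ) = ∑ y : Fin 2 → V, Gb E c v j (y 0) (y 1) := by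
  unfold mm Gb
  rw [card_filter]
  push_cast
  exact sum_congr rfl fun t _ => by congr

omit [Fintype V] in
theorem F01 (g : V → Fin 3) (t : Fin 3 → V) : 0 ≤ Fb E g t ∧ Fb E g t ≤ 1 := by
  unfold Fb; split_ifs <;> norm_num

omit [Fintype V] in
theorem G01 (c : V → Fin 3) (v : V) (j : Fin 3) (a b : V) :
    0 ≤ Gb E c v j a b ∧ Gb E c v j a b ≤ 1 := by
  unfold Gb; split_ifs <;> norm_num

omit [Fintype V] in
theorem pointwise (hE : Sy E) (c : V → Fin 3) (v : V) (j : Fin 3) (t : Fin 3 → V) :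
    Fb E (Function.update c v j) t ≤ Fb E c t +
      (if t 0 = v then Gb E c v j (t 1) (t 2) - Gb E c v (c v) (t 1) (t 2) else 0) +
      (if t 1 = v then Gb E c v j (t 0) (t 2) - Gb E c v (c v) (t 0) (t 2) else 0) +
      (if t 2 = v then Gb E c v j (t 0) (t 1) - Gb E c v (c v) (t 0) (t 1) else 0) +
      3 * ((if t 0 = v ∧ t 1 = v then 1 else 0) + (if t 0 = v ∧ t 2 = v then 1 else 0) +
        (if t 1 = v ∧ t 2 = v then 1 else 0)) := by
  have a1 := F01 (E := E) (Function.update c v j) t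
  have a2 := F01 (E := E) c t
  have b1 := G01 (E := E) c v j (t 1) (t 2)
  have b2 := G01 (E := E) c v (c v) (t 1) (t 2)
  have b3 := G01 (E := E) c v j (t 0) (t 2)
  have b4 := G01 (E := E) c v (c v) (t 0) (t 2)
  have b5 := G01 (E := E) c v j (t 0) (t 1)
  have b6 := G01 (E := E) c v (c v) (t 0) (t 1)
  by_cases h0 : t 0 = v <;> by_cases h1 : t 1 = v <;> by_cases h2 : t 2 = v
  · simp only [h0, h1, h2, and_self, if_true] at *
    linarith
  · simp only [h0, h1, h2, and_self, and_false, if_true, if_false] at *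
    linarith
  · simp only [h0, h1, h2, and_self, and_false, false_and, if_true, if_false] at *
    linarith
  · have e1 : Fb E (Function.update c v j) t = Gb E c v j (t 1) (t 2) := by
      unfold Fb Gb
      rw [h0, Function.update_self, Function.update_of_ne h1, Function.update_of_ne h2]
    have e2 : Fb E c t = Gb E c v (c v) (t 1) (t 2) := by
      unfold Fb Gb
      rw [h0]
    rw [e1, e2, if_pos h0, if_neg h1, if_neg h2, if_neg (fun h => h1 h.2), if_neg (fun h => h2 h.2),
      if_neg (fun h => h1 h.1)]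
    linarith
  · simp only [h0, h1, h2, and_self, and_false, false_and, if_true, if_false] at *
    linarith
  · have e1 : Fb E (Function.update c v j) t = Gb E c v j (t 0) (t 2) := by
      unfold Fb Gb
      rw [h1, Function.update_self, Function.update_of_ne h0, Function.update_of_ne h2,
        ← hE.h213 (t 0) v (t 2), ← Rf_sy.h213 (c (t 0)) j (c (t 2))]
    have e2 : Fb E c t = Gb E c v (c v) (t 0) (t 2) := by
      unfold Fb Gb
      rw [h1, ← hE.h213 (t 0) v (t 2), ← Rf_sy.h213 (c (t 0)) (c v) (c (t 2))]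
    rw [e1, e2, if_pos h1, if_neg h0, if_neg h2, if_neg (fun h => h0 h.1), if_neg (fun h => h0 h.1),
      if_neg (fun h => h2 h.2)]
    linarith
  · have e1 : Fb E (Function.update c v j) t = Gb E c v j (t 0) (t 1) := by
      unfold Fb Gb
      rw [h2, Function.update_self, Function.update_of_ne h0, Function.update_of_ne h1,
        ← hE.h231 v (t 0) (t 1), ← Rf_sy.h231 j (c (t 0)) (c (t 1))]
    have e2 : Fb E c t = Gb E c v (c v) (t 0) (t 1) := by
      unfold Fb Gb
      rw [h2, ← hE.h231 v (t 0) (t 1), ← Rf_sy.h231 (c v) (c (t 0)) (c (t 1))]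
    rw [e1, e2, if_pos h2, if_neg h0, if_neg h1, if_neg (fun h => h0 h.1), if_neg (fun h => h0 h.1),
      if_neg (fun h => h1 h.1)]
    linarith
  · have e1 : Fb E (Function.update c v j) t = Fb E c t := by
      unfold Fb
      rw [Function.update_of_ne h0, Function.update_of_ne h1, Function.update_of_ne h2]
    rw [e1, if_neg h0, if_neg h1, if_neg h2, if_neg (fun h => h0 h.1), if_neg (fun h => h0 h.1),
      if_neg (fun h => h1 h.1)]
    linarith

theorem min_col (hE : Sy E) {c : V → Fin 3} (hc : ∀ g, bad E c ≤ bad E g) (v : V) (j : Fin 3) :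
    (mm E c v (c v) : ℝ) ≤ mm E c v j + 3 * Fintype.card V := by
  have h1 : (bad E c : ℝ) ≤ bad E (Function.update c v j) := by exact_mod_cast hc _
  rw [bad_sum, bad_sum] at h1
  have h2 := sum_le_sum fun t (_ : t ∈ (univ : Finset (Fin 3 → V))) => pointwise hE c v j t
  simp only [sum_add_distrib, ← mul_sum] at h2
  have i0 := ins_sum (V := V) 0 v fun t =>
    Gb E c v j (t 1) (t 2) - Gb E c v (c v) (t 1) (t 2)
  have i1 := ins_sum (V := V) 1 v fun t =>
    Gb E c v j (t 0) (t 2) - Gb E c v (c v) (t 0) (t 2)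
  have i2 := ins_sum (V := V) 2 v fun t =>
    Gb E c v j (t 0) (t 1) - Gb E c v (c v) (t 0) (t 1)
  have j0 : ∑ y : Fin 2 → V, (Gb E c v j ((Fin.insertNth 0 v y : Fin 3 → V) 1)
      ((Fin.insertNth 0 v y : Fin 3 → V) 2) - Gb E c v (c v) ((Fin.insertNth 0 v y : Fin 3 → V) 1)
      ((Fin.insertNth 0 v y : Fin 3 → V) 2)) = mm E c v j - mm E c v (c v) := by
    rw [mm_sum, mm_sum, ← sum_sub_distrib]
    rfl
  have j1 : ∑ y : Fin 2 → V, (Gb E c v j ((Fin.insertNth 1 v y : Fin 3 → V) 0)
      ((Fin.insertNth 1 v y : Fin 3 → V) 2) - Gb E c v (c v) ((Fin.insertNth 1 v y : Fin 3 → V) 0)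
      ((Fin.insertNth 1 v y : Fin 3 → V) 2)) = mm E c v j - mm E c v (c v) := by
    rw [mm_sum, mm_sum, ← sum_sub_distrib]
    rfl
  have j2 : ∑ y : Fin 2 → V, (Gb E c v j ((Fin.insertNth 2 v y : Fin 3 → V) 0)
      ((Fin.insertNth 2 v y : Fin 3 → V) 1) - Gb E c v (c v) ((Fin.insertNth 2 v y : Fin 3 → V) 0)
      ((Fin.insertNth 2 v y : Fin 3 → V) 1)) = mm E c v j - mm E c v (c v) := by
    rw [mm_sum, mm_sum, ← sum_sub_distrib]
    rfl
  rw [i0, i1, i2, j0, j1, j2] at h2
  have k0 := two_le (V := V) (i := 0) (j := 1) (by decide) v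
  have k1 := two_le (V := V) (i := 0) (j := 2) (by decide) v
  have k2 := two_le (V := V) (i := 1) (j := 2) (by decide) v
  linarith

/-- missing triples at a vertex -/
theorem miss_le (hE : Sy E) (c : V → Fin 3) (v : V) :
    ∑ p, ∑ q, Mf E c v p q ≤ mm E c v (c v) := by
  rw [mm_sum, ← Equiv.sum_comp (finTwoArrowEquiv V).symm, Fintype.sum_prod_type]
  refine sum_le_sum fun p _ => sum_le_sum fun q _ => ?_
  show Mf E c v p q ≤ Gb E c v (c v) p q
  unfold Mf Gb
  split_ifs with h1 h2
  · norm_num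
  · exfalso
    apply h2
    obtain ⟨a, b, d⟩ := Tf_ne h1.2
    rw [h1.1]
    have := h1.2
    rw [Tf_of a b d] at this
    rw [this]
    norm_num
  · norm_num
  · norm_num

/-- a colouring with the smallest number of bad triples -/
theorem exists_min (E : V → V → V → ℕ) : ∃ c : V → Fin 3, ∀ g, bad E c ≤ bad E g := by
  obtain ⟨c, -, hc⟩ := exists_min_image (univ : Finset (V → Fin 3)) (fun g => bad E g)
    ⟨fun _ => 0, mem_univ _⟩
  exact ⟨c, fun g => hc g (mem_univ _)⟩

end
end Pool.Agent.N461.L2
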