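import Pool.Agent.N461.L2.Size
import Pool.Agent.N461.L2.Col2
import Pool.Agent.N461.TT.Low

/-! Extremal 3-graphs are close to Turán's construction at every vertex. -/

set_option autoImplicit false
set_option maxRecDepth 100000
set_option maxHeartbeats 4000000
open Finset
open scoped Classical

namespace Pool.Agent.N461.L2
open Pool.Agent.H122R2.N6 Pool.Agent.H37R3.Pen Pool.Agent.H37R3.Cop Pool.Agent.H37R3.CopL
open Pool.Agent.TH773.ST Pool.Agent.N461.TT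

section
variable {V : Type} [Fintype V] {E : V → V → V → ℕ} {n : ℝ}

theorem D5_le (hE : Sy E) (hK : NoK4 E) (hn : n = Fintype.card V) (h36 : 10 ^ 36 ≤ n)
    (hext : ∀ u v : V, N2 (fun x y z => E (rm u v x) (rm u v y) (rm u v z)) ≤ N2 E)
    (hlow : (1 / 3 - 1 / 10 ^ 33) * n ^ 4 ≤ N2 E) (p : Fin 6) (v : V) :
    (D5 E p v : ℝ) ≤ 1 / 10 ^ 13 * n ^ 5 := by
  have hn0 : 0 < n := by linarith
  -- the derivative
  have hD : (4 / 3 - 5 / 10 ^ 33) * n ^ 3 ≤ Dv E v := by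
    have h := Dv_lo hE hext (by rw [← hn]; linarith) v
    rw [← hn] at h
    have h1 : n * ((4 / 3 - 5 / 10 ^ 33) * n ^ 3) ≤ n * Dv E v := by
      have h2 : 18 * n ^ 3 ≤ 1 / 10 ^ 33 * n ^ 4 := by
        have h7 : 10 ^ 36 * n ^ 3 ≤ n * n ^ 3 := mul_le_mul_of_nonneg_right h36 (by positivity)
        have h8 : n * n ^ 3 = n ^ 4 := by ring
        rw [h8] at h7
        have h9 : 0 ≤ n ^ 3 := by positivity
        linarith
      have e1 : n * ((4 / 3 - 5 / 10 ^ 33) * n ^ 3) = (4 / 3 - 5 / 10 ^ 33) * n ^ 4 := by ring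
      rw [e1]
      have h10 : 0 ≤ n ^ 4 := by positivity
      linarith
    exact le_of_mul_le_mul_left h1 hn0
  set k : ℕ := ⌊n / 10 ^ 16⌋₊ with hk
  have k1 : (k : ℝ) ≤ n / 10 ^ 16 := Nat.floor_le (by positivity)
  have k2 : n / 10 ^ 16 < (k : ℝ) + 1 := Nat.lt_floor_add_one _
  have k3 : n / (2 * 10 ^ 16) ≤ (k : ℝ) := by
    have : 1 ≤ n / (2 * 10 ^ 16) := by
      rw [le_div_iff₀ (by norm_num)]; linarith
    have : n / 10 ^ 16 = 2 * (n / (2 * 10 ^ 16)) := by ring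
    linarith
  have hk0 : 0 < (k : ℝ) := lt_of_lt_of_le (by positivity) k3
  have hm := clone_main hE hK p v k
  rw [← hn] at hm
  set K : ℝ := (k : ℝ) with hKdef
  set D : ℝ := (D5 E p v : ℝ) with hDdef
  have s1 : (1 / 3 - 1 / 10 ^ 33) * n ^ 4 + K * ((4 / 3 - 5 / 10 ^ 33) * n ^ 3) ≤
      N2 E + K * Dv E v := by
    have := mul_le_mul_of_nonneg_left hD hk0.le
    linarith
  have s2 : (n + K) ^ 4 / 3 - (N2 E + K * Dv E v) ≤ 2 / 10 ^ 33 * n ^ 4 + 3 * n ^ 2 * K ^ 2 := by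
    have e : (n + K) ^ 4 / 3 - ((1 / 3 - 1 / 10 ^ 33) * n ^ 4 + K * ((4 / 3 - 5 / 10 ^ 33) * n ^ 3)) =
        1 / 10 ^ 33 * n ^ 4 + 5 / 10 ^ 33 * (n ^ 3 * K) + 2 * (n ^ 2 * K ^ 2) +
          4 / 3 * (n * K ^ 3) + 1 / 3 * K ^ 4 := by ring
    have a1 : n ^ 3 * K ≤ n ^ 3 * (n / 10 ^ 16) := mul_le_mul_of_nonneg_left k1 (by positivity)
    have a2 : n * K ^ 3 ≤ (n ^ 2 * K ^ 2) / 10 ^ 16 := by
      have : (n * K ^ 2) * K ≤ (n * K ^ 2) * (n / 10 ^ 16) :=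
        mul_le_mul_of_nonneg_left k1 (by positivity)
      calc n * K ^ 3 = (n * K ^ 2) * K := by ring
        _ ≤ (n * K ^ 2) * (n / 10 ^ 16) := this
        _ = _ := by ring
    have a3 : K ^ 4 ≤ (n ^ 2 * K ^ 2) / 10 ^ 16 := by
      have h1 : K * K ≤ (n / 10 ^ 16) * (n / 10 ^ 16) := mul_le_mul k1 k1 hk0.le (by positivity)
      have h2 : K ^ 2 * (K * K) ≤ K ^ 2 * ((n / 10 ^ 16) * (n / 10 ^ 16)) :=
        mul_le_mul_of_nonneg_left h1 (by positivity)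
      have h3 : K ^ 2 * ((n / 10 ^ 16) * (n / 10 ^ 16)) ≤ (n ^ 2 * K ^ 2) / 10 ^ 16 := by
        have : 0 ≤ n ^ 2 * K ^ 2 := by positivity
        nlinarith
      calc K ^ 4 = K ^ 2 * (K * K) := by ring
        _ ≤ _ := h2.trans h3
    have a4 : n ^ 3 * (n / 10 ^ 16) = n ^ 4 / 10 ^ 16 := by ring
    have p1 : 0 ≤ n ^ 2 * K ^ 2 := by positivity
    have p2 : 0 ≤ n ^ 4 := by positivity
    rw [a4] at a1
    linarith
  have s3 : 81 * (K * D) ≤ 9720 * ((n + K) ^ 2 * ((n + K) ^ 4 / 3 - (N2 E + K * Dv E v))) := by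
    have e : 9720 * ((n + K) ^ 2 * ((n + K) ^ 4 / 3 - (N2 E + K * Dv E v))) =
      3240 * (n + K) ^ 6 - 9720 * ((n + K) ^ 2 * (N2 E + K * Dv E v)) := by ring
    rw [e]; linarith
  have s4 : (n + K) ^ 2 * ((n + K) ^ 4 / 3 - (N2 E + K * Dv E v)) ≤
      (101 / 100 * n ^ 2) * (2 / 10 ^ 33 * n ^ 4 + 3 * n ^ 2 * K ^ 2) := by
    refine (mul_le_mul_of_nonneg_left s2 (by positivity)).trans ?_
    refine mul_le_mul_of_nonneg_right ?_ (by positivity)
    have h1 : n + K ≤ 1001 / 1000 * n := by linarith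
    calc (n + K) ^ 2 ≤ (1001 / 1000 * n) ^ 2 := pow_le_pow_left₀ (by positivity) h1 2
      _ ≤ _ := by nlinarith [sq_nonneg n]
  have s5 : K * D ≤ K * (1 / 10 ^ 13 * n ^ 5) := by
    have b1 : n ^ 5 * (n / (2 * 10 ^ 16)) ≤ n ^ 5 * K := mul_le_mul_of_nonneg_left k3 (by positivity)
    have b2 : (n ^ 4 * K) * K ≤ (n ^ 4 * K) * (n / 10 ^ 16) :=
      mul_le_mul_of_nonneg_left k1 (by positivity)
    have e1 : n ^ 5 * (n / (2 * 10 ^ 16)) = n ^ 6 / (2 * 10 ^ 16) := by ring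
    have e2 : (n ^ 4 * K) * (n / 10 ^ 16) = (n ^ 5 * K) / 10 ^ 16 := by ring
    have e3 : (n ^ 4 * K) * K = n ^ 4 * K ^ 2 := by ring
    rw [e1] at b1
    rw [e2, e3] at b2
    have e4 : (101 / 100 * n ^ 2) * (2 / 10 ^ 33 * n ^ 4 + 3 * n ^ 2 * K ^ 2) =
      202 / 100 / 10 ^ 33 * n ^ 6 + 303 / 100 * (n ^ 4 * K ^ 2) := by ring
    have e5 : K * (1 / 10 ^ 13 * n ^ 5) = 1 / 10 ^ 13 * (n ^ 5 * K) := by ring
    rw [e4] at s4
    rw [e5]
    have q1 : 0 ≤ n ^ 5 * K := by positivity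
    generalize n ^ 5 * K = a at *
    generalize n ^ 4 * K ^ 2 = b at *
    generalize n ^ 6 = d at *
    generalize K * D = f at *
    linarith
  exact le_of_mul_le_mul_left s5 hk0

theorem core (hE : Sy E) (hK : NoK4 E) (hd : ∀ x z, E x x z = 0) (hn : n = Fintype.card V)
    (h36 : 10 ^ 36 ≤ n)
    (hext : ∀ u v : V, N2 (fun x y z => E (rm u v x) (rm u v y) (rm u v z)) ≤ N2 E)
    (hlow : (1 / 3 - 1 / 10 ^ 33) * n ^ 4 ≤ N2 E) : ∃ c : V → Fin 3, Hyp E c n := by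
  have hn0 : 0 < n := by linarith
  obtain ⟨c, hc⟩ := exists_min E
  obtain ⟨g, hg⟩ := A2 hE hK
  rw [← hn] at hg
  have hbad : (bad E c : ℝ) ≤ 2 / 10 ^ 26 * n ^ 3 := by
    have h1 : (bad E c : ℝ) ≤ bad E g := by exact_mod_cast hc g
    have h2 : n ^ 3 * (bad E c : ℝ) ≤ n ^ 3 * (2 / 10 ^ 26 * n ^ 3) := by
      have h3 : n ^ 3 * (bad E c : ℝ) ≤ n ^ 3 * (bad E g : ℝ) :=
        mul_le_mul_of_nonneg_left h1 (by positivity)
      have h4 : n ^ 2 * ((1 / 3 - 1 / 10 ^ 33) * n ^ 4) ≤ n ^ 2 * N2 E :=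
        mul_le_mul_of_nonneg_left hlow (by positivity)
      have e1 : n ^ 2 * ((1 / 3 - 1 / 10 ^ 33) * n ^ 4) = (1 / 3 - 1 / 10 ^ 33) * n ^ 6 := by ring
      have e2 : n ^ 3 * (2 / 10 ^ 26 * n ^ 3) = 2 / 10 ^ 26 * n ^ 6 := by ring
      rw [e1] at h4
      rw [e2]
      have q : 0 ≤ n ^ 6 := by positivity
      generalize n ^ 6 = d at *
      generalize n ^ 2 * N2 E = m at *
      generalize n ^ 3 * (bad E c : ℝ) = f at *
      generalize n ^ 3 * (bad E g : ℝ) = l at *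
      linarith
    exact le_of_mul_le_mul_left h2 (by positivity)
  -- sizes
  have hsz := N2_diff hE c
  rw [N2_R, ← hn] at hsz
  have hcl := cl_sum c
  rw [← hn] at hcl
  have hP : (1 / 3 - 1 / 10 ^ 8) * n ^ 4 ≤ P4 (cl c 0) (cl c 1) (cl c 2) := by
    have h1 : 2 * n * (bad E c : ℝ) ≤ 2 * n * (2 / 10 ^ 26 * n ^ 3) :=
      mul_le_mul_of_nonneg_left hbad (by positivity)
    have e1 : 2 * n * (2 / 10 ^ 26 * n ^ 3) = 4 / 10 ^ 26 * n ^ 4 := by ring
    rw [e1] at h1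
    have q : 0 ≤ n ^ 4 := by positivity
    linarith
  obtain ⟨z0, z1, z2⟩ := near (cl0 0) (cl0 1) (cl0 2) hcl hn0 le_rfl hP
  rw [abs_le] at z0 z1 z2
  have hu : ∀ k, cl c k ≤ n / 3 + n / 1000 := by
    intro k; fin_cases k
    · show cl c 0 ≤ _; linarith
    · show cl c 1 ≤ _; linarith
    · show cl c 2 ≤ _; linarith
  have hl : ∀ k, n / 3 - n / 1000 ≤ cl c k := by
    intro k; fin_cases k
    · show _ ≤ cl c 0; linarith
    · show _ ≤ cl c 1; linarith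
    · show _ ≤ cl c 2; linarith
  refine ⟨c, hE, hK, hd, hn, by linarith, hu, hl, fun v => (miss_le hE c v).trans ?_⟩
  obtain ⟨j, hj⟩ := exists_j (E := E) c v
  have hj' : ((SD c).card : ℝ) * (mm E c v j : ℝ) ≤ 343 * ((bad E c : ℝ) * n ^ 4) +
      ∑ i : Fin 4, (D5 E (pos4 i) v : ℝ) * n ^ 2 := by
    rw [hn]
    exact_mod_cast hj
  have hD : ∑ i : Fin 4, (D5 E (pos4 i) v : ℝ) * n ^ 2 ≤ 4 / 10 ^ 13 * n ^ 7 := by
    calc ∑ i : Fin 4, (D5 E (pos4 i) v : ℝ) * n ^ 2 ≤ ∑ _i : Fin 4, (1 / 10 ^ 13 * n ^ 5) * n ^ 2 :=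
          sum_le_sum fun i _ => mul_le_mul_of_nonneg_right
            (D5_le hE hK hn h36 hext hlow (pos4 i) v) (by positivity)
      _ = 4 / 10 ^ 13 * n ^ 7 := by rw [sum_const, card_univ, Fintype.card_fin]; ring
  have hB : 343 * ((bad E c : ℝ) * n ^ 4) ≤ 343 * ((2 / 10 ^ 26 * n ^ 3) * n ^ 4) :=
    mul_le_mul_of_nonneg_left (mul_le_mul_of_nonneg_right hbad (by positivity)) (by norm_num)
  have hS : 1 / 256 * n ^ 5 ≤ ((SD c).card : ℝ) := by
    rw [SD_card]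
    have l0 := hl 0
    have l1 := hl 1
    have l2 := hl 2
    set a := n / 3 - n / 1000 with ha
    have ha0 : 0 ≤ a := by rw [ha]; linarith
    have c0 := cl0 (c := c) 0
    have c1 := cl0 (c := c) 1
    calc 1 / 256 * n ^ 5 ≤ a * a * a * a * a := by
          have e : a = 997 / 3000 * n := by rw [ha]; ring
          have e5 : a * a * a * a * a = (997 / 3000) ^ 5 * n ^ 5 := by rw [e]; ring
          rw [e5]
          refine mul_le_mul_of_nonneg_right (by norm_num) (by positivity)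
      _ ≤ cl c 0 * cl c 0 * cl c 1 * cl c 1 * cl c 2 := by
          refine mul_le_mul (mul_le_mul (mul_le_mul (mul_le_mul l0 l0 ha0 c0) l1 ha0 ?_) l1 ha0 ?_)
            l2 ha0 ?_ <;> positivity
  have hmm : (mm E c v j : ℝ) ≤ 5 / 10 ^ 10 * n ^ 2 := by
    have h1 : (1 / 256 * n ^ 5) * (mm E c v j : ℝ) ≤ (1 / 256 * n ^ 5) * (5 / 10 ^ 10 * n ^ 2) := by
      have h2 := mul_le_mul_of_nonneg_right hS (by positivity : 0 ≤ (mm E c v j : ℝ))
      have e1 : 343 * ((2 / 10 ^ 26 * n ^ 3) * n ^ 4) = 686 / 10 ^ 26 * n ^ 7 := by ring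
      have e2 : (1 / 256 * n ^ 5) * (5 / 10 ^ 10 * n ^ 2) = 5 / 256 / 10 ^ 10 * n ^ 7 := by ring
      rw [e1] at hB
      rw [e2]
      have q : 0 ≤ n ^ 7 := by positivity
      generalize n ^ 7 = d at *
      linarith
    exact le_of_mul_le_mul_left h1 (by positivity)
  have h3 := min_col hE hc v j
  rw [← hn] at h3
  have h4 : 3 * n ≤ 1 / 10 ^ 10 * n ^ 2 := by nlinarith
  linarith [sq_nonneg n]

end

section
variable {V : Type} [Fintype V]

theorem N2_T (c : V → Fin 3) : N2 (fun x y z => Rf (c x) (c y) (c z)) ≤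
    N2 (Tf c) + 5 * (Fintype.card V : ℝ) ^ 3 := by
  set n : ℝ := (Fintype.card V : ℝ) with hn
  have hR : Sy (fun x y z => Rf (c x) (c y) (c z)) := pull_sy Rf_sy c
  unfold N2
  have key : ∀ x y, dr (fun x y z => Rf (c x) (c y) (c z)) x y ^ 2 ≤
      dr (Tf c) x y ^ 2 + (4 * n + if x = y then n ^ 2 else 0) := by
    intro x y
    have h1 := drN hR x y
    have h0 := dr0 (fun x y z => Rf (c x) (c y) (c z)) x y
    rw [← hn] at h1
    have h2 := dr0 (Tf c) x y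
    have hn0 : 0 ≤ n := by rw [hn]; positivity
    by_cases hxy : x = y
    · rw [if_pos hxy]
      have : dr (fun x y z => Rf (c x) (c y) (c z)) x y ^ 2 ≤ n ^ 2 := pow_le_pow_left₀ h0 h1 2
      have := sq_nonneg (dr (Tf c) x y)
      linarith
    · rw [if_neg hxy, add_zero]
      have h3 : dr (fun x y z => Rf (c x) (c y) (c z)) x y - 2 ≤ dr (Tf c) x y := by
        have := tf_lo (c := c) hxy
        rw [← rowsum] at this
        exact this
      generalize dr (fun x y z => Rf (c x) (c y) (c z)) x y = r at *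
      generalize dr (Tf c) x y = d at *
      rcases le_total r 2 with h4 | h4
      · nlinarith
      · have : (r - 2) ^ 2 ≤ d ^ 2 := pow_le_pow_left₀ (by linarith) h3 2
        nlinarith
  have h := sum_le_sum fun x (_ : x ∈ (univ : Finset V)) =>
    sum_le_sum fun y (_ : y ∈ (univ : Finset V)) => key x y
  simp only [sum_add_distrib, sum_const, card_univ, nsmul_eq_mul, sum_ite_eq, mem_univ, if_true]
    at h
  refine h.trans (le_of_eq ?_)
  rw [← hn]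
  ring

theorem low_T {n : ℕ} (h36 : (10 : ℝ) ^ 36 ≤ n) :
    (1 / 3 - 1 / 10 ^ 33) * (n : ℝ) ^ 4 ≤ N2 (Tf (g3 n)) := by
  have h1 := N2_T (g3 n)
  rw [N2_R, Fintype.card_fin] at h1
  have hc : ∀ k, ((n : ℝ) - 2) / 3 ≤ cl (g3 n) k := by
    intro k
    have h2 := g3_card n k
    have h3 : ((n / 3 : ℕ) : ℝ) ≤ cl (g3 n) k := by
      unfold cl
      have : (univ.filter fun v => g3 n v = k).card =
        ((univ : Finset (Fin n)).filter fun v => g3 n v = k).card := rfl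
      exact_mod_cast (h2.trans (le_of_eq (by congr)))
    have h4 : (n : ℝ) ≤ 3 * ((n / 3 : ℕ) : ℝ) + 2 := by
      have : n ≤ 3 * (n / 3) + 2 := by omega
      exact_mod_cast this
    linarith
  set N : ℝ := (n : ℝ) with hN
  have hN0 : 0 < N := by linarith
  set a := (N - 2) / 3 with ha
  have ha0 : 0 ≤ a := by rw [ha]; linarith
  have l0 := hc 0
  have l1 := hc 1
  have l2 := hc 2
  have h5 : 27 * a ^ 4 ≤ P4 (cl (g3 n) 0) (cl (g3 n) 1) (cl (g3 n) 2) := by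
    generalize cl (g3 n) 0 = x at *
    generalize cl (g3 n) 1 = y at *
    generalize cl (g3 n) 2 = z at *
    have hx : 0 ≤ x := ha0.trans l0
    have hy : 0 ≤ y := ha0.trans l1
    have hz : 0 ≤ z := ha0.trans l2
    have x2 : a ^ 2 ≤ x ^ 2 := pow_le_pow_left₀ ha0 l0 2
    have y2 : a ^ 2 ≤ y ^ 2 := pow_le_pow_left₀ ha0 l1 2
    have z2 : a ^ 2 ≤ z ^ 2 := pow_le_pow_left₀ ha0 l2 2
    have a2 : 0 ≤ a ^ 2 := by positivity
    have t1 := mul_le_mul x2 y2 a2 (by positivity)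
    have t2 := mul_le_mul y2 z2 a2 (by positivity)
    have t3 := mul_le_mul z2 x2 a2 (by positivity)
    have b1 : (2 * a) ^ 2 ≤ (x + z) ^ 2 := pow_le_pow_left₀ (by linarith) (by linarith) 2
    have b2 : (2 * a) ^ 2 ≤ (y + x) ^ 2 := pow_le_pow_left₀ (by linarith) (by linarith) 2
    have b3 : (2 * a) ^ 2 ≤ (z + y) ^ 2 := pow_le_pow_left₀ (by linarith) (by linarith) 2
    have c1 := mul_le_mul (mul_le_mul l0 l1 ha0 hx) b1 (by positivity) (by positivity)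
    have c2 := mul_le_mul (mul_le_mul l1 l2 ha0 hy) b2 (by positivity) (by positivity)
    have c3 := mul_le_mul (mul_le_mul l2 l0 ha0 hz) b3 (by positivity) (by positivity)
    unfold P4
    nlinarith
  have h6 : N ^ 4 - 8 * N ^ 3 ≤ 3 * (27 * a ^ 4) := by
    have : 3 * (27 * a ^ 4) = (N - 2) ^ 4 := by rw [ha]; ring
    rw [this]
    nlinarith [sq_nonneg N]
  have h7 : 10 ^ 36 * N ^ 3 ≤ N * N ^ 3 := mul_le_mul_of_nonneg_right h36 (by positivity)
  have h8 : N * N ^ 3 = N ^ 4 := by ring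
  rw [h8] at h7
  have q : 0 ≤ N ^ 3 := by positivity
  generalize N ^ 3 = s at *
  generalize N ^ 4 = d at *
  generalize a ^ 4 = e at *
  linarith

end
end Pool.Agent.N461.L2
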