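import Pool.Agent.N461.L2.Core
import Pool.Agent.N461.TT.Conn

/-! Extremal 3-graphs for the sum of the squares of the codegrees. -/

set_option autoImplicit false
set_option maxRecDepth 100000
set_option maxHeartbeats 4000000
open Finset

namespace Pool.Agent.N461.L2
open Pool.Agent.H122R2.N6 Pool.Agent.H37R3.Pen Pool.Agent.H37R3.Cop Pool.Agent.H37R3.CopL
open Pool.Agent.TH773.ST Pool.Agent.N461.TT

section
variable {n : ℕ} {H : Finset (Finset (Fin n))}

/-- number of edges containing `x` and `y` (for `x ≠ y`) -/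
def cdg (H : Finset (Finset (Fin n))) (x y : Fin n) : ℕ :=
  ((univ : Finset (Fin n)).filter fun z => ({x, y, z} : Finset (Fin n)) ∈ H).card

def sqSum (H : Finset (Finset (Fin n))) : ℕ := ∑ x, ∑ y, cdg H x y ^ 2

theorem dr_tri (x y : Fin n) : dr (tri H) x y = (cdg H x y : ℝ) := by
  unfold dr cdg
  rw [card_filter]
  push_cast
  refine sum_congr rfl fun z _ => ?_
  rw [tri_ite]
  push_cast
  rfl

theorem N2_tri : N2 (tri H) = (sqSum H : ℝ) := by
  unfold N2 sqSum
  push_cast
  exact sum_congr rfl fun x _ => sum_congr rfl fun y _ => by rw [dr_tri]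

/-- the pullback of a 3-graph -/
def pull (H : Finset (Finset (Fin n))) (φ : Fin n → Fin n) : Finset (Finset (Fin n)) :=
  ((univ : Finset (Fin n)).powersetCard 3).filter fun e => e.image φ ∈ H

theorem three_of_card {x y z : Fin n} (h : ({x, y, z} : Finset (Fin n)).card = 3) :
    x ≠ y ∧ x ≠ z ∧ y ≠ z := by
  refine ⟨?_, ?_, ?_⟩
  · rintro rfl
    have := card_le_two (a := x) (b := z)
    simp at h
    omega
  · rintro rfl
    have h1 : ({x, y, x} : Finset (Fin n)) = {x, y} := by
      ext v; simp only [mem_insert, mem_singleton]; tauto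
    rw [h1] at h
    have := card_le_two (a := x) (b := y)
    omega
  · rintro rfl
    have h1 : ({x, y, y} : Finset (Fin n)) = {x, y} := by
      ext v; simp only [mem_insert, mem_singleton]; tauto
    rw [h1] at h
    have := card_le_two (a := x) (b := y)
    omega

theorem card_of_three {x y z : Fin n} (h1 : x ≠ y) (h2 : x ≠ z) (h3 : y ≠ z) :
    ({x, y, z} : Finset (Fin n)).card = 3 := card_eq_three.mpr ⟨x, y, z, h1, h2, h3, rfl⟩

theorem tri_pull (h3 : ∀ e ∈ H, e.card = 3) (φ : Fin n → Fin n) (x y z : Fin n) :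
    tri (pull H φ) x y z = tri H (φ x) (φ y) (φ z) := by
  rw [tri_ite, tri_ite]
  have h : (({x, y, z} : Finset (Fin n)) ∈ pull H φ) ↔
      ({φ x, φ y, φ z} : Finset (Fin n)) ∈ H := by
    unfold pull
    rw [mem_filter, mem_powersetCard, image_insert, image_insert, image_singleton]
    constructor
    · exact fun h => h.2
    · intro h
      refine ⟨⟨subset_univ _, ?_⟩, h⟩
      obtain ⟨a, b, c⟩ := three_of_card (h3 _ h)
      exact card_of_three (fun e => a (by rw [e])) (fun e => b (by rw [e])) (fun e => c (by rw [e]))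
  by_cases hh : ({φ x, φ y, φ z} : Finset (Fin n)) ∈ H
  · rw [if_pos hh, if_pos (h.mpr hh)]
  · rw [if_neg hh, if_neg (fun h' => hh (h.mp h'))]

theorem pull_three (φ : Fin n → Fin n) : ∀ e ∈ pull H φ, e.card = 3 := by
  intro e he
  unfold pull at he
  exact (mem_powersetCard.mp (mem_filter.mp he).1).2

theorem free_of_noK4 {G : Finset (Finset (Fin n))} (hN : NoK4 (tri G)) : TT.K43Free G := by
  intro S hS
  obtain ⟨a, t, ha, rfl, ht⟩ := card_eq_succ.mp hS
  obtain ⟨b, c, d, hbc, hbd, hcd, rfl⟩ := card_eq_three.mp ht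
  have hab : a ≠ b := by rintro rfl; simp at ha
  have hac : a ≠ c := by rintro rfl; simp at ha
  have had : a ≠ d := by rintro rfl; simp at ha
  by_contra hcon
  push Not at hcon
  have e1 : tri G a b c = 1 := tri_iff.mpr (hcon _ (by
    intro v; simp only [mem_insert, mem_singleton]; tauto) (card_of_three hab hac hbc))
  have e2 : tri G a b d = 1 := tri_iff.mpr (hcon _ (by
    intro v; simp only [mem_insert, mem_singleton]; tauto) (card_of_three hab had hbd))
  have e3 : tri G a c d = 1 := tri_iff.mpr (hcon _ (by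
    intro v; simp only [mem_insert, mem_singleton]; tauto) (card_of_three hac had hcd))
  have e4 : tri G b c d = 1 := tri_iff.mpr (hcon _ (by
    intro v; simp only [mem_insert, mem_singleton]; tauto) (card_of_three hbc hbd hcd))
  have := hN a b c d
  rw [e1, e2, e3, e4] at this
  exact absurd this (by decide)

theorem pull_free (h3 : ∀ e ∈ H, e.card = 3) (hK : TT.K43Free H) (φ : Fin n → Fin n) :
    TT.K43Free (pull H φ) := by
  refine free_of_noK4 ?_
  have h : tri (pull H φ) = fun x y z => tri H (φ x) (φ y) (φ z) := by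
    funext x y z
    exact tri_pull h3 φ x y z
  rw [h]
  exact pull_k4 (noK4 h3 hK) φ

theorem tri_turan (c : Fin n → Fin 3) : tri (turan c) = Tf c := by
  funext x y z
  rw [tri_ite]
  by_cases h : x ≠ y ∧ x ≠ z ∧ y ≠ z
  · obtain ⟨a, b, d⟩ := h
    rw [Tf_of a b d]
    rcases Rf_sy.b (c x) (c y) (c z) with e | e
    · rw [e, if_neg]
      rw [mem_tur a b d, e]
      norm_num
    · rw [e, if_pos]
      rw [mem_tur a b d, e]
  · have h2 : Tf c x y z = 0 := by unfold Tf; rw [if_neg h]
    rw [h2, if_neg]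
    intro h'
    exact h (three_of_card (turan_three c _ h'))

theorem main_sq (h36 : (10 : ℝ) ^ 36 ≤ n) (h3 : ∀ e ∈ H, e.card = 3) (hK : TT.K43Free H)
    (hmax : ∀ G : Finset (Finset (Fin n)), (∀ e ∈ G, e.card = 3) → TT.K43Free G →
      sqSum G ≤ sqSum H) : ∃ c : Fin n → Fin 3, H = turan c ∧ Hyp (tri H) c (n : ℝ) := by
  have hE := tri_sy H
  have hN := noK4 h3 hK
  have hd : ∀ x z : Fin n, tri H x x z = 0 := by
    intro x z
    rcases hE.b x x z with e | e
    · exact e
    · exact absurd rfl (three_of_card (h3 _ (tri_iff.mp e))).1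
  have hext : ∀ u v : Fin n, N2 (fun x y z => tri H (rm u v x) (rm u v y) (rm u v z)) ≤
      N2 (tri H) := by
    intro u v
    have h : (fun x y z => tri H (rm u v x) (rm u v y) (rm u v z)) = tri (pull H (rm u v)) := by
      funext x y z
      exact (tri_pull h3 _ x y z).symm
    rw [h, N2_tri, N2_tri]
    exact_mod_cast hmax _ (pull_three _) (pull_free h3 hK _)
  have hlow : (1 / 3 - 1 / 10 ^ 33) * (n : ℝ) ^ 4 ≤ N2 (tri H) := by
    refine (low_T h36).trans ?_
    rw [← tri_turan, N2_tri, N2_tri]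
    exact_mod_cast hmax _ (turan_three _) (turan_free _)
  obtain ⟨c, hc⟩ := core hE hN hd (n := (n : ℝ)) (by rw [Fintype.card_fin]) h36 hext hlow
  refine ⟨c, ?_, hc⟩
  have hmc := hmax _ (turan_three c) (turan_free c)
  have hnb : ∀ x y z, tri H x y z = 1 → Tf c x y z = 1 := by
    by_contra hcon
    push Not at hcon
    obtain ⟨x, y, z, h1, h2⟩ := hcon
    have h4 : Tf c x y z = 0 := ((Tf_sy c).b x y z).resolve_right h2
    have hl := local_lt hc ⟨x, y, z, h1, h4⟩
    have e1 : ∑ x, ∑ y, (∑ z, (tri H x y z : ℝ)) ^ 2 = N2 (tri H) := rfl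
    have e2 : ∑ x, ∑ y, (∑ z, (Tf c x y z : ℝ)) ^ 2 = N2 (Tf c) := rfl
    rw [e1, e2, ← tri_turan, N2_tri, N2_tri] at hl
    have : sqSum H < sqSum (turan c) := by exact_mod_cast hl
    omega
  have hsub : H ⊆ turan c := by
    intro e he
    obtain ⟨x, y, z, h1, h2, h4, rfl⟩ := card_eq_three.mp (h3 e he)
    have := hnb x y z (tri_iff.mpr he)
    rw [← tri_turan] at this
    exact tri_iff.mp this
  refine Subset.antisymm hsub ?_
  by_contra hcon
  obtain ⟨e, he, hne⟩ := not_subset.mp hcon
  obtain ⟨x, y, z, h1, h2, h4, rfl⟩ := card_eq_three.mp (turan_three c e he)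
  have hle : ∀ a b, cdg H a b ≤ cdg (turan c) a b := by
    intro a b
    unfold cdg
    refine card_le_card fun w hw => ?_
    rw [mem_filter] at hw ⊢
    exact ⟨hw.1, hsub hw.2⟩
  have hlt : cdg H x y < cdg (turan c) x y := by
    unfold cdg
    refine card_lt_card ⟨fun w hw => ?_, fun hs => ?_⟩
    · rw [mem_filter] at hw ⊢
      exact ⟨hw.1, hsub hw.2⟩
    · exact hne (mem_filter.mp (hs (mem_filter.mpr ⟨mem_univ z, he⟩))).2
  have : sqSum H < sqSum (turan c) := by
    unfold sqSum
    refine sum_lt_sum (fun a _ => sum_le_sum fun b _ => Nat.pow_le_pow_left (hle a b) 2)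
      ⟨x, mem_univ _, ?_⟩
    exact sum_lt_sum (fun b _ => Nat.pow_le_pow_left (hle x b) 2)
      ⟨y, mem_univ _, Nat.pow_lt_pow_left hlt (by norm_num)⟩
  omega

end
end Pool.Agent.N461.L2
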