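import Pool.Agent.N461.L2.Clone

/-! Replacing a vertex by a copy of another vertex. -/

set_option autoImplicit false
set_option maxRecDepth 100000
set_option maxHeartbeats 4000000
open Finset
open scoped Classical

namespace Pool.Agent.N461.L2
open Pool.Agent.H122R2.N6 Pool.Agent.H37R3.Pen Pool.Agent.H37R3.Cop Pool.Agent.H37R3.CopL
open Pool.Agent.TH773.ST Pool.Agent.N461.TT

section
variable {V : Type} [Fintype V] {E : V → V → V → ℕ}

/-- the map which replaces `u` by `v` -/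
noncomputable def rm (u v : V) (a : V) : V := if a = u then v else a

theorem sum_rm (u v : V) (g : V → ℝ) : ∑ a, g (rm u v a) = ∑ a, g a + g v - g u := by
  have h : ∀ a, g (rm u v a) = g a + if a = u then (g v - g u) else 0 := by
    intro a
    unfold rm
    split_ifs with h
    · rw [h]; ring
    · ring
  simp only [h, sum_add_distrib, sum_ite_eq' univ u, mem_univ, if_true]
  ring

theorem drN (hE : Sy E) (a b : V) : dr E a b ≤ Fintype.card V := by
  unfold dr
  calc ∑ c, (E a b c : ℝ) ≤ ∑ _c : V, (1 : ℝ) := by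
        refine sum_le_sum fun c _ => ?_
        rcases hE.b a b c with e | e <;> rw [e] <;> norm_num
    _ = _ := by rw [sum_const, card_univ, nsmul_eq_mul, mul_one]

theorem dr_sy (hE : Sy E) (a b : V) : dr E a b = dr E b a := by
  unfold dr
  exact sum_congr rfl fun z _ => by rw [hE.h213 b a z]

theorem sum_Dv : ∑ v, Dv E v = 4 * N2 E := by
  unfold Dv N2
  rw [sum_add_distrib, ← mul_sum, ← mul_sum]
  have e1 : ∑ v, ∑ a, ∑ b, dr E a b * (E a b v : ℝ) = ∑ a, ∑ b, dr E a b ^ 2 := by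
    rw [sum_comm]
    refine sum_congr rfl fun a _ => ?_
    rw [sum_comm]
    refine sum_congr rfl fun b _ => ?_
    rw [← mul_sum, sq]
    rfl
  have e2 : ∑ v, ∑ a, dr E a v ^ 2 = ∑ a, ∑ b, dr E a b ^ 2 := sum_comm
  rw [e1, e2]
  ring

theorem repl (hE : Sy E) {u v : V}
    (hext : N2 (fun x y z => E (rm u v x) (rm u v y) (rm u v z)) ≤ N2 E)
    (h1n : (1 : ℝ) ≤ Fintype.card V) :
    Dv E v ≤ Dv E u + 18 * (Fintype.card V : ℝ) ^ 2 := by
  set n : ℝ := (Fintype.card V : ℝ) with hn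
  set d' : V → V → ℝ := fun a b => dr E a b + (E a b v : ℝ) - (E a b u : ℝ) with hd'
  have h1 : ∀ a b, dr (fun x y z => E (rm u v x) (rm u v y) (rm u v z)) a b =
      d' (rm u v a) (rm u v b) := by
    intro a b
    exact sum_rm u v (fun z => (E (rm u v a) (rm u v b) z : ℝ))
  have hE01 : ∀ a b c, (0 : ℝ) ≤ (E a b c : ℝ) ∧ (E a b c : ℝ) ≤ 1 := by
    intro a b c
    rcases hE.b a b c with e | e <;> rw [e] <;> norm_num
  have hdn : ∀ a b, dr E a b ≤ n := fun a b => drN hE a b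
  set G : V → V → ℝ := fun a b => d' a b ^ 2 with hG
  have gs : ∀ a b, G a b = G b a := by
    intro a b
    rw [hG, hd']
    simp only
    rw [dr_sy hE a b, hE.h213 b a v, hE.h213 b a u]
  have h2 : N2 (fun x y z => E (rm u v x) (rm u v y) (rm u v z)) =
      ∑ a, ∑ b, G a b + 2 * ∑ a, G a v - 2 * ∑ a, G a u + G v v - 2 * G u v + G u u := by
    unfold N2
    simp only [h1]
    have h3 : ∀ a, ∑ b, d' (rm u v a) (rm u v b) ^ 2 =
        ∑ b, G (rm u v a) b + G (rm u v a) v - G (rm u v a) u := fun a =>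
          sum_rm u v (fun b => G (rm u v a) b)
    simp only [h3]
    have h4 := sum_rm u v (fun a => ∑ b, G a b + G a v - G a u)
    rw [h4, sum_sub_distrib, sum_add_distrib]
    have e1 : ∑ b, G v b = ∑ a, G a v := sum_congr rfl fun b _ => gs v b
    have e2 : ∑ b, G u b = ∑ a, G a u := sum_congr rfl fun b _ => gs u b
    rw [e1, e2, gs v u]
    ring
  have g0 : ∀ a b, dr E a b ^ 2 + 2 * (dr E a b * (E a b v : ℝ)) -
      2 * (dr E a b * (E a b u : ℝ)) ≤ G a b := by
    intro a b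
    rw [hG, hd']
    simp only
    nlinarith [sq_nonneg ((E a b v : ℝ) - (E a b u : ℝ))]
  have g1 : ∀ a, dr E a v ^ 2 - 2 * n ≤ G a v := by
    intro a
    have := g0 a v
    have d0 := dr0 E a v
    have dn := hdn a v
    obtain ⟨p1, p2⟩ := hE01 a v v
    obtain ⟨p3, p4⟩ := hE01 a v u
    have q1 : 0 ≤ dr E a v * (E a v v : ℝ) := mul_nonneg d0 p1
    have q2 : dr E a v * (E a v u : ℝ) ≤ n * 1 := mul_le_mul dn p4 p3 (by linarith)
    linarith
  have g2 : ∀ a, G a u ≤ dr E a u ^ 2 + 2 * n + 1 := by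
    intro a
    have d0 := dr0 E a u
    have dn := hdn a u
    obtain ⟨p1, p2⟩ := hE01 a u v
    obtain ⟨p3, p4⟩ := hE01 a u u
    have q1 : dr E a u * (E a u v : ℝ) ≤ n * 1 := mul_le_mul dn p2 p1 (by linarith)
    have q2 : 0 ≤ dr E a u * (E a u u : ℝ) := mul_nonneg d0 p3
    rw [hG, hd']
    simp only
    nlinarith [mul_nonneg p1 p3, mul_le_mul p2 p2 p1 (by norm_num : (0:ℝ) ≤ 1),
      mul_le_mul p4 p4 p3 (by norm_num : (0:ℝ) ≤ 1)]
  have g3 : G u v ≤ (n + 1) ^ 2 := by
    have d0 := dr0 E u v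
    have dn := hdn u v
    obtain ⟨p1, p2⟩ := hE01 u v v
    obtain ⟨p3, p4⟩ := hE01 u v u
    rw [hG, hd']
    simp only
    refine sq_le_sq' ?_ ?_ <;> linarith
  have g4 : 0 ≤ G v v := sq_nonneg _
  have g5 : 0 ≤ G u u := sq_nonneg _
  have s1 := sum_le_sum fun a (_ : a ∈ (univ : Finset V)) =>
    sum_le_sum fun b (_ : b ∈ (univ : Finset V)) => g0 a b
  have s2 := sum_le_sum fun a (_ : a ∈ (univ : Finset V)) => g1 a
  have s3 := sum_le_sum fun a (_ : a ∈ (univ : Finset V)) => g2 a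
  simp only [sum_add_distrib, sum_sub_distrib, ← mul_sum, sum_const, card_univ, nsmul_eq_mul]
    at s1 s2 s3
  rw [← hn] at s2 s3
  rw [h2] at hext
  unfold Dv
  have eN : N2 E = ∑ a, ∑ b, dr E a b ^ 2 := rfl
  rw [eN] at hext
  have n1 : n ≤ n ^ 2 := by nlinarith
  have n2 : (n + 1) ^ 2 = n ^ 2 + 2 * n + 1 := by ring
  have n3 : n * n = n ^ 2 := by ring
  rw [n3] at s2 s3
  rw [n2] at g3
  linarith

/-- extremal 3-graphs: all derivatives are large -/
theorem Dv_lo (hE : Sy E) (hext : ∀ u v : V,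
    N2 (fun x y z => E (rm u v x) (rm u v y) (rm u v z)) ≤ N2 E)
    (h1n : (1 : ℝ) ≤ Fintype.card V) (u : V) :
    4 * N2 E ≤ Fintype.card V * Dv E u + 18 * (Fintype.card V : ℝ) ^ 3 := by
  rw [← sum_Dv]
  have h := sum_le_sum fun v (_ : v ∈ (univ : Finset V)) => repl hE (hext u v) h1n
  rw [sum_const, card_univ, nsmul_eq_mul] at h
  refine h.trans (le_of_eq ?_)
  ring

end
end Pool.Agent.N461.L2
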