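import Pool.Agent.N461.L2.Repl
import Pool.Agent.N461.L2.Loc

/-! The sizes of the classes. -/

set_option autoImplicit false
set_option maxRecDepth 100000
set_option maxHeartbeats 4000000
open Finset
open scoped Classical

namespace Pool.Agent.N461.L2
open Pool.Agent.H122R2.N6 Pool.Agent.H37R3.Pen Pool.Agent.H37R3.Cop Pool.Agent.H37R3.CopL
open Pool.Agent.TH773.ST Pool.Agent.N461.TT

/-- leading term for classes of sizes `x`, `y`, `z` -/
def P4 (x y z : ℝ) : ℝ := x ^ 2 * y ^ 2 + y ^ 2 * z ^ 2 + z ^ 2 * x ^ 2 +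
  2 * (x * y * (x + z) ^ 2 + y * z * (y + x) ^ 2 + z * x * (z + y) ^ 2)

theorem quartic0 (x u w : ℝ) (hx : 0 ≤ x) (hu : 0 ≤ u) (hw : 0 ≤ w) :
    1 / 4 * (x + (x + u) + (x + w)) ^ 2 * (u ^ 2 - u * w + w ^ 2) ≤
      (x + (x + u) + (x + w)) ^ 4 - 3 * P4 x (x + u) (x + w) := by
  have h0 : (x + (x + u) + (x + w)) ^ 4 - 3 * P4 x (x + u) (x + w) -
      1 / 4 * (x + (x + u) + (x + w)) ^ 2 * (u ^ 2 - u * w + w ^ 2) =
      39 / 4 * (x ^ 2 * (u ^ 2 - u * w + w ^ 2)) +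
      x * (u * (9 / 2 * u ^ 2 - 6 * u * w + 12 * w ^ 2) + 9 / 2 * w ^ 3) +
      (3 / 4 * (u ^ 2 * (u ^ 2 - 3 * u * w + 4 * w ^ 2)) + 15 / 4 * (u * w ^ 3) + 3 / 4 * w ^ 4) := by
    unfold P4; ring
  have h1 : 0 ≤ u ^ 2 - u * w + w ^ 2 := by nlinarith [sq_nonneg (u - w), sq_nonneg (u + w)]
  have h2 : 0 ≤ 9 / 2 * u ^ 2 - 6 * u * w + 12 * w ^ 2 := by
    nlinarith [sq_nonneg (u - w), sq_nonneg (3 * u - 2 * w), sq_nonneg w]
  have h3 : 0 ≤ u ^ 2 - 3 * u * w + 4 * w ^ 2 := by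
    nlinarith [sq_nonneg (2 * u - 3 * w), sq_nonneg w]
  have : 0 ≤ 39 / 4 * (x ^ 2 * (u ^ 2 - u * w + w ^ 2)) +
      x * (u * (9 / 2 * u ^ 2 - 6 * u * w + 12 * w ^ 2) + 9 / 2 * w ^ 3) +
      (3 / 4 * (u ^ 2 * (u ^ 2 - 3 * u * w + 4 * w ^ 2)) + 15 / 4 * (u * w ^ 3) + 3 / 4 * w ^ 4) := by
    positivity
  linarith

theorem quartic1 (x y z : ℝ) (hx : 0 ≤ x) (hy : x ≤ y) (hz : x ≤ z) :
    1 / 4 * (x + y + z) ^ 2 * (x ^ 2 + y ^ 2 + z ^ 2 - x * y - y * z - z * x) ≤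
      (x + y + z) ^ 4 - 3 * P4 x y z := by
  have h := quartic0 x (y - x) (z - x) hx (by linarith) (by linarith)
  have e1 : x + (y - x) = y := by ring
  have e2 : x + (z - x) = z := by ring
  rw [e1, e2] at h
  have e3 : (y - x) ^ 2 - (y - x) * (z - x) + (z - x) ^ 2 =
    x ^ 2 + y ^ 2 + z ^ 2 - x * y - y * z - z * x := by ring
  rwa [e3] at h

theorem P4_cyc (x y z : ℝ) : P4 x y z = P4 y z x := by unfold P4; ring

theorem quartic (x y z : ℝ) (hx : 0 ≤ x) (hy : 0 ≤ y) (hz : 0 ≤ z) :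
    1 / 4 * (x + y + z) ^ 2 * (x ^ 2 + y ^ 2 + z ^ 2 - x * y - y * z - z * x) ≤
      (x + y + z) ^ 4 - 3 * P4 x y z := by
  rcases le_total x y with h1 | h1
  · rcases le_total x z with h2 | h2
    · exact quartic1 x y z hx h1 h2
    · have h := quartic1 z x y hz h2 (h2.trans h1)
      rw [P4_cyc z x y] at h
      have e1 : z + x + y = x + y + z := by ring
      have e2 : z ^ 2 + x ^ 2 + y ^ 2 - z * x - x * y - y * z =
        x ^ 2 + y ^ 2 + z ^ 2 - x * y - y * z - z * x := by ring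
      rwa [e1, e2] at h
  · rcases le_total y z with h2 | h2
    · have h := quartic1 y z x hy h2 h1
      rw [← P4_cyc x y z] at h
      have e1 : y + z + x = x + y + z := by ring
      have e2 : y ^ 2 + z ^ 2 + x ^ 2 - y * z - z * x - x * y =
        x ^ 2 + y ^ 2 + z ^ 2 - x * y - y * z - z * x := by ring
      rwa [e1, e2] at h
    · have h := quartic1 z x y hz (h2.trans h1) h2
      rw [P4_cyc z x y] at h
      have e1 : z + x + y = x + y + z := by ring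
      have e2 : z ^ 2 + x ^ 2 + y ^ 2 - z * x - x * y - y * z =
        x ^ 2 + y ^ 2 + z ^ 2 - x * y - y * z - z * x := by ring
      rwa [e1, e2] at h

/-- sizes close to a third -/
theorem near {x y z N ζ : ℝ} (hx : 0 ≤ x) (hy : 0 ≤ y) (hz : 0 ≤ z) (hN : x + y + z = N)
    (hpos : 0 < N) (hζ : ζ ≤ 1 / 10 ^ 8) (h : (1 / 3 - ζ) * N ^ 4 ≤ P4 x y z) :
    |x - N / 3| ≤ N / 1000 ∧ |y - N / 3| ≤ N / 1000 ∧ |z - N / 3| ≤ N / 1000 := by
  have h1 := quartic x y z hx hy hz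
  rw [hN] at h1
  have e : x ^ 2 + y ^ 2 + z ^ 2 - x * y - y * z - z * x =
      3 / 2 * ((x - N / 3) ^ 2 + (y - N / 3) ^ 2 + (z - N / 3) ^ 2) := by
    rw [← hN]; ring
  rw [e] at h1
  set q := (x - N / 3) ^ 2 + (y - N / 3) ^ 2 + (z - N / 3) ^ 2 with hq
  have h2 : N ^ 2 * q ≤ N ^ 2 * (8 / 10 ^ 8 * N ^ 2) := by
    have h4 : ζ * N ^ 4 ≤ 1 / 10 ^ 8 * N ^ 4 := mul_le_mul_of_nonneg_right hζ (by positivity)
    nlinarith
  have h3 : q ≤ 8 / 10 ^ 8 * N ^ 2 := le_of_mul_le_mul_left h2 (by positivity)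
  have h5 : 8 / 10 ^ 8 * N ^ 2 ≤ (N / 1000) ^ 2 := by nlinarith [sq_nonneg N]
  refine ⟨abs_le_of_sq_le_sq ?_ (by positivity), abs_le_of_sq_le_sq ?_ (by positivity),
    abs_le_of_sq_le_sq ?_ (by positivity)⟩
  · nlinarith [sq_nonneg (y - N / 3), sq_nonneg (z - N / 3)]
  · nlinarith [sq_nonneg (x - N / 3), sq_nonneg (z - N / 3)]
  · nlinarith [sq_nonneg (y - N / 3), sq_nonneg (x - N / 3)]

section
variable {V : Type} [Fintype V] {E : V → V → V → ℕ}

theorem comp_sum (c : V → Fin 3) (f : Fin 3 → ℝ) : ∑ z, f (c z) = ∑ k, cl c k * f k := by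
  rw [← sum_fiberwise (s := univ) (g := c)]
  refine sum_congr rfl fun k _ => ?_
  rw [sum_congr rfl (fun z hz => by rw [(mem_filter.mp hz).2]), sum_const, nsmul_eq_mul]
  rfl

theorem cl_sum (c : V → Fin 3) : cl c 0 + cl c 1 + cl c 2 = Fintype.card V := by
  have h := comp_sum c (fun _ => 1)
  rw [sum_const, card_univ, nsmul_eq_mul, mul_one, Fin.sum_univ_three] at h
  linarith

theorem N2_R (c : V → Fin 3) : N2 (fun x y z => Rf (c x) (c y) (c z)) =
    P4 (cl c 0) (cl c 1) (cl c 2) := by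
  unfold N2 dr
  have h1 : ∀ a b : V, ∑ z, (Rf (c a) (c b) (c z) : ℝ) = ∑ k, cl c k * (Rf (c a) (c b) k : ℝ) :=
    fun a b => comp_sum c (fun k => (Rf (c a) (c b) k : ℝ))
  simp only [h1]
  have h2 : ∀ a : V, ∑ b : V, (∑ k, cl c k * (Rf (c a) (c b) k : ℝ)) ^ 2 =
      ∑ j, cl c j * (∑ k, cl c k * (Rf (c a) j k : ℝ)) ^ 2 :=
    fun a => comp_sum c (fun j => (∑ k, cl c k * (Rf (c a) j k : ℝ)) ^ 2)
  simp only [h2]
  rw [comp_sum c (fun i => ∑ j, cl c j * (∑ k, cl c k * (Rf i j k : ℝ)) ^ 2)]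
  simp [Fin.sum_univ_three, Rf, rB, P4]
  ring

theorem sum3 (F : V → V → V → ℝ) : ∑ t : Fin 3 → V, F (t 0) (t 1) (t 2) =
    ∑ a, ∑ b, ∑ c, F a b c := by
  let e : V × V × V ≃ (Fin 3 → V) :=
    { toFun := fun p => ![p.1, p.2.1, p.2.2]
      invFun := fun t => (t 0, t 1, t 2)
      left_inv := fun p => rfl
      right_inv := fun t => by funext i; fin_cases i <;> rfl }
  rw [← Equiv.sum_comp e, Fintype.sum_prod_type]
  refine sum_congr rfl fun a _ => ?_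
  rw [Fintype.sum_prod_type]
  rfl

theorem N2_diff (hE : Sy E) (c : V → Fin 3) : N2 E ≤ N2 (fun x y z => Rf (c x) (c y) (c z)) +
    2 * Fintype.card V * (bad E c : ℝ) := by
  have hb : (bad E c : ℝ) = ∑ a, ∑ b, ∑ z, if E a b z ≠ Rf (c a) (c b) (c z) then (1 : ℝ) else 0 := by
    rw [← sum3 (fun a b z => if E a b z ≠ Rf (c a) (c b) (c z) then (1 : ℝ) else 0)]
    unfold bad
    rw [card_filter]
    push_cast
    exact sum_congr rfl fun t _ => by congr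
  rw [hb, mul_sum]
  unfold N2
  rw [← sum_add_distrib]
  refine sum_le_sum fun a _ => ?_
  rw [mul_sum, ← sum_add_distrib]
  refine sum_le_sum fun b _ => ?_
  set β := ∑ z, if E a b z ≠ Rf (c a) (c b) (c z) then (1 : ℝ) else 0 with hβ
  have hR : Sy (fun x y z => Rf (c x) (c y) (c z)) := pull_sy Rf_sy c
  have h1 : dr E a b ≤ dr (fun x y z => Rf (c x) (c y) (c z)) a b + β := by
    unfold dr
    rw [hβ, ← sum_add_distrib]
    refine sum_le_sum fun z _ => ?_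
    by_cases h : E a b z = Rf (c a) (c b) (c z)
    · rw [if_neg (not_not.mpr h), h, add_zero]
    · rw [if_pos h]
      have : (E a b z : ℝ) ≤ 1 := by rcases hE.b a b z with e | e <;> rw [e] <;> norm_num
      have h0 : (0 : ℝ) ≤ (Rf (c a) (c b) (c z) : ℝ) := by positivity
      linarith
  have h2 := drN hE a b
  have h3 := drN hR a b
  have h4 := dr0 E a b
  have h5 := dr0 (fun x y z => Rf (c x) (c y) (c z)) a b
  have hβ0 : 0 ≤ β := sum_nonneg fun z _ => by split_ifs <;> norm_num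
  generalize dr E a b = d at *
  generalize dr (fun x y z => Rf (c x) (c y) (c z)) a b = r at *
  rcases le_total d r with h6 | h6
  · have : d ^ 2 ≤ r ^ 2 := pow_le_pow_left₀ h4 h6 2
    have : 0 ≤ 2 * (Fintype.card V : ℝ) * β := by positivity
    linarith
  · have e1 : d ^ 2 = r ^ 2 + (d - r) * (d + r) := by ring
    rw [e1]
    have : (d - r) * (d + r) ≤ β * (2 * Fintype.card V) :=
      mul_le_mul (by linarith) (by linarith) (by linarith) hβ0
    linarith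

end
end Pool.Agent.N461.L2
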