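import Pool.Agent.N461.L2.Bal

/-! The theorem on the sum of the squares of the codegrees. -/

set_option autoImplicit false
set_option maxRecDepth 100000
set_option maxHeartbeats 4000000
open Finset

namespace Pool.Agent.N461.L2
open Pool.Agent.H122R2.N6 Pool.Agent.H37R3.Pen Pool.Agent.H37R3.Cop Pool.Agent.H37R3.CopL
open Pool.Agent.TH773.ST Pool.Agent.N461.TT

section
variable {n : ℕ} {H : Finset (Finset (Fin n))}

theorem ext_bal (h36 : (10 : ℝ) ^ 36 ≤ n) (h3 : ∀ e ∈ H, e.card = 3) (hK : TT.K43Free H)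
    (hmax : ∀ G : Finset (Finset (Fin n)), (∀ e ∈ G, e.card = 3) → TT.K43Free G →
      sqSum G ≤ sqSum H) : ∃ c : Fin n → Fin 3, Balanced c ∧ H = turan c := by
  obtain ⟨c, rfl, hc⟩ := main_sq h36 h3 hK hmax
  refine ⟨c, ?_, rfl⟩
  by_contra hb
  obtain ⟨g, hg⟩ := improve (by linarith) hc.hu hc.hl hb
  rw [← tri_turan, ← tri_turan, N2_tri, N2_tri] at hg
  have h1 : sqSum (turan c) < sqSum (turan g) := by exact_mod_cast hg
  have h2 := hmax _ (turan_three g) (turan_free g)
  omega

theorem main_bal (h36 : (10 : ℝ) ^ 36 ≤ n) (h3 : ∀ e ∈ H, e.card = 3) (hK : TT.K43Free H)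
    {g : Fin n → Fin 3} (hg : Balanced g) : sqSum H ≤ sqSum (turan g) ∧
      (sqSum H = sqSum (turan g) → ∃ c : Fin n → Fin 3, Balanced c ∧ H = turan c) := by
  classical
  set A : Finset (Finset (Finset (Fin n))) := univ.filter fun G =>
    (∀ e ∈ G, e.card = 3) ∧ TT.K43Free G with hA
  have hne : A.Nonempty := ⟨turan g, mem_filter.mpr ⟨mem_univ _, turan_three g, turan_free g⟩⟩
  obtain ⟨G0, hG0, hmax⟩ := exists_max_image A sqSum hne
  obtain ⟨-, k3, kK⟩ := mem_filter.mp hG0
  have hmax' : ∀ G : Finset (Finset (Fin n)), (∀ e ∈ G, e.card = 3) → TT.K43Free G →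
      sqSum G ≤ sqSum G0 := fun G a b => hmax G (mem_filter.mpr ⟨mem_univ _, a, b⟩)
  obtain ⟨c0, hb0, rfl⟩ := ext_bal h36 k3 kK hmax'
  have hv : sqSum (turan c0) = sqSum (turan g) := by
    have h := bal_val hb0 hg
    rw [← tri_turan, ← tri_turan, N2_tri, N2_tri] at h
    exact_mod_cast h
  refine ⟨by rw [← hv]; exact hmax' H h3 hK, fun he => ?_⟩
  refine ext_bal h36 h3 hK fun G a b => ?_
  rw [he, ← hv]
  exact hmax' G a b

/-- The codegree of a set `P` of two vertices: the number of edges containing `P`. -/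
def codegree (H : Finset (Finset (Fin n))) (P : Finset (Fin n)) : ℕ := (H.filter (P ⊆ ·)).card

/-- The codegree squared sum of `H`: the sum of the squares of the codegrees of all sets of two
vertices. -/
def co2 (H : Finset (Finset (Fin n))) : ℕ :=
  ∑ P ∈ (univ : Finset (Fin n)).powersetCard 2, codegree H P ^ 2

theorem cdg_eq (h3 : ∀ e ∈ H, e.card = 3) {a b : Fin n} (hab : a ≠ b) :
    cdg H a b = codegree H {a, b} := by
  unfold cdg codegree
  refine Finset.card_bij (fun c _ => ({a, b, c} : Finset (Fin n))) ?_ ?_ ?_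
  · intro c hc
    rw [mem_filter] at hc ⊢
    refine ⟨hc.2, ?_⟩
    intro z hz
    simp only [mem_insert, mem_singleton] at hz ⊢
    tauto
  · intro c hc c' hc' h
    rw [mem_filter] at hc hc'
    have hd := three_of_card (h3 _ hc.2)
    have hm : c ∈ ({a, b, c'} : Finset (Fin n)) := by rw [← h]; simp
    simp only [mem_insert, mem_singleton] at hm
    rcases hm with hm | hm | hm
    · exact absurd hm hd.2.1.symm
    · exact absurd hm hd.2.2.symm
    · exact hm
  · intro s hs
    rw [mem_filter] at hs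
    obtain ⟨hs, hsub⟩ := hs
    have h1 : (s \ {a, b}).card = 1 := by
      rw [card_sdiff_of_subset hsub, h3 s hs, card_pair hab]
    obtain ⟨c, hc⟩ := Finset.card_eq_one.mp h1
    have h2 : ({a, b, c} : Finset (Fin n)) = s := by
      have h4 : s = {a, b} ∪ (s \ {a, b}) := (union_sdiff_of_subset hsub).symm
      rw [h4, hc]
      ext z
      simp only [mem_insert, mem_singleton, mem_union]
      tauto
    exact ⟨c, mem_filter.mpr ⟨mem_univ _, h2 ▸ hs⟩, h2⟩

theorem sum_pairs {n : ℕ} (F : Finset (Fin n) → ℕ) :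
    ∑ p ∈ (univ : Finset (Fin n)).offDiag, F {p.1, p.2} =
      2 * ∑ p ∈ (univ : Finset (Fin n)).powersetCard 2, F p := by
  rw [← Finset.sum_fiberwise_of_maps_to (t := (univ : Finset (Fin n)).powersetCard 2)
    (g := fun p : Fin n × Fin n => ({p.1, p.2} : Finset (Fin n)))]
  · rw [mul_sum]
    refine sum_congr rfl fun y hy => ?_
    rw [mem_powersetCard] at hy
    obtain ⟨u, v, huv, rfl⟩ := Finset.card_eq_two.mp hy.2
    have h1 : ((univ : Finset (Fin n)).offDiag.filter
        fun p : Fin n × Fin n => ({p.1, p.2} : Finset (Fin n)) = {u, v}) = {(u, v), (v, u)} := by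
      ext ⟨a, b⟩
      simp only [mem_filter, mem_offDiag, mem_univ, true_and, mem_insert, mem_singleton,
        Prod.mk.injEq]
      constructor
      · rintro ⟨hab, h⟩
        have ha : a ∈ ({u, v} : Finset (Fin n)) := by rw [← h]; simp
        have hb : b ∈ ({u, v} : Finset (Fin n)) := by rw [← h]; simp
        simp only [mem_insert, mem_singleton] at ha hb
        rcases ha with rfl | rfl <;> rcases hb with rfl | rfl <;> simp_all
      · rintro (⟨rfl, rfl⟩ | ⟨rfl, rfl⟩)
        · exact ⟨huv, rfl⟩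
        · exact ⟨huv.symm, pair_comm _ _⟩
    rw [h1, sum_pair (by simp [huv])]
    rw [pair_comm v u]
    ring
  · intro p hp
    rw [mem_offDiag] at hp
    rw [mem_powersetCard]
    exact ⟨subset_univ _, card_pair hp.2.2⟩

theorem sqSum_eq (h3 : ∀ e ∈ H, e.card = 3) : sqSum H = 2 * co2 H := by
  unfold co2 sqSum
  rw [← sum_pairs fun p => codegree H p ^ 2]
  rw [← Fintype.sum_prod_type' (f := fun a b => cdg H a b ^ 2)]
  rw [← Finset.sum_subset (Finset.subset_univ (univ : Finset (Fin n)).offDiag)]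
  · refine sum_congr rfl fun p hp => ?_
    rw [mem_offDiag] at hp
    rw [cdg_eq h3 hp.2.2]
  · rintro ⟨a, b⟩ _ hp
    rw [mem_offDiag] at hp
    have hab : a = b := by
      by_contra h
      exact hp ⟨mem_univ _, mem_univ _, h⟩
    subst hab
    have h0 : cdg H a a = 0 := by
      unfold cdg
      rw [card_eq_zero, filter_eq_empty_iff]
      intro z _ hz
      exact (three_of_card (h3 _ hz)).1 rfl
    rw [h0]
    norm_num

theorem main_co2 (h36 : (10 : ℕ) ^ 36 ≤ n) (h3 : ∀ e ∈ H, e.card = 3) (hK : TT.K43Free H)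
    {g : Fin n → Fin 3} (hg : Balanced g) : co2 H ≤ co2 (turan g) ∧
      (co2 H = co2 (turan g) → ∃ c : Fin n → Fin 3, Balanced c ∧ H = turan c) := by
  have h := main_bal (by exact_mod_cast h36) h3 hK hg
  rw [sqSum_eq h3, sqSum_eq (turan_three g)] at h
  exact ⟨by omega, fun he => h.2 (by rw [he])⟩

end
end Pool.Agent.N461.L2
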